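import Pool.Agent.Lib.ALLO_h5.Gen
import Pool.Agent.Lib.TAO.CentreA
import Pool.Agent.Lib.TAO.Defs

/-!
# Local uniformization for every defect: the elements fixed by the decomposition group of a
prime are approximated by the base ring

See `b525bf_ALLDEFECT_h21.md`, section 3 (S3d).
-/

set_option autoImplicit false

open Polynomial

namespace Pool.Agent.ALLO5

open Pool.Agent.TAO (OVal)
open Pool.Agent.TAO (VPos)
open Pool.Agent.ALLO (locv)

universe u w

variable {k Ω : Type u} [Field k] [Field Ω] [Algebra k Ω]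
  {𝕂 : Type w} [Field 𝕂] [LinearOrder 𝕂] [IsStrictOrderedRing 𝕂] {v : OVal 𝕂 Ω}

/-- The elements of `N` integral over `R`. -/
noncomputable def ON (R : Subalgebra k Ω) {F : IntermediateField k Ω} (N : IntermediateField F Ω) :
    Subalgebra k Ω :=
  (integralClosure R Ω).restrictScalars k ⊓ (N.restrictScalars k).toSubalgebra

/-- The localization of `ON R N` at the centre of `v`. -/
noncomputable def CN (v : OVal 𝕂 Ω) (R : Subalgebra k Ω) {F : IntermediateField k Ω}
    (N : IntermediateField F Ω) : Subalgebra k Ω := locv v (ON R N)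

/-- A local ring, dominated by the valuation ring of `v`, integrally closed in the field `F`. -/
structure Base (v : OVal 𝕂 Ω) (R : Subalgebra k Ω) (F : IntermediateField k Ω) : Prop where
  le : ∀ f ∈ R, f ∈ F
  nonneg : ∀ f ∈ R, v.Ge 0 f
  loc : ∀ f ∈ R, f ≠ 0 → v f = 0 → f⁻¹ ∈ R
  normal : ∀ f ∈ F, IsIntegral R f → f ∈ R

section

variable {R : Subalgebra k Ω} {F : IntermediateField k Ω} {N : IntermediateField F Ω}

theorem mem_ON {g : Ω} : g ∈ ON R N ↔ IsIntegral R g ∧ g ∈ N := by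
  rw [ON, Algebra.mem_inf, Subalgebra.mem_restrictScalars, mem_integralClosure_iff]
  rfl

theorem le_ON (hB : Base v R F) {g : Ω} (hg : g ∈ R) : g ∈ ON R N := by
  rw [mem_ON]
  refine ⟨isIntegral_algebraMap (x := (⟨g, hg⟩ : R)), ?_⟩
  exact (algebraMap F N ⟨g, hB.le g hg⟩).2

theorem ge_ON (hB : Base v R F) {g : Ω} (hg : g ∈ ON R N) : v.Ge 0 g :=
  Pool.Agent.TAO.ge_of_isIntegral (fun a => hB.nonneg _ a.2) (mem_ON.1 hg).1

theorem vpos_or {g : Ω} (hg : v.Ge 0 g) : VPos v g ∨ (g ≠ 0 ∧ v g = 0) := by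
  by_cases h0 : g = 0
  · left
    rw [h0]
    exact Pool.Agent.TAO.VPos.zero
  · rcases (hg h0).lt_or_eq with h | h
    · exact Or.inl fun _ => h
    · exact Or.inr ⟨h0, h.symm⟩

theorem not_vpos {g : Ω} (h0 : g ≠ 0) (h : v g = 0) : ¬ VPos v g := fun h1 => by
  have := h1 h0
  rw [h] at this
  exact lt_irrefl _ this

theorem vpos_pow {g : Ω} (hg : VPos v g) {j : ℕ} (hj : j ≠ 0) : VPos v (g ^ j) := by
  intro h0
  have h1 : g ≠ 0 := by
    rintro rfl
    exact h0 (zero_pow hj)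
  rw [v.map_pow h1]
  exact mul_pos (by exact_mod_cast Nat.pos_of_ne_zero hj) (hg h1)

/-- Automorphisms preserve `ON`. -/
theorem aut_ON (hB : Base v R F) (σ : N ≃ₐ[F] N) {a : N} (ha : (a : Ω) ∈ ON R N) :
    (σ a : Ω) ∈ ON R N := by
  rw [mem_ON] at ha ⊢
  refine ⟨?_, (σ a).2⟩
  obtain ⟨P, hP, hPa⟩ := ha.1
  let φ : R →+* F := ((algebraMap R Ω).codRestrict F.toSubring fun f => hB.le _ f.2)
  have hφ : ∀ f : R, ((φ f : F) : Ω) = (f : Ω) := fun _ => rfl
  have hev : ∀ c : N, ((aeval c (P.map φ) : N) : Ω) = eval₂ (algebraMap R Ω) (c : Ω) P := by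
    intro c
    rw [aeval_def, eval₂_map]
    have h1 := hom_eval₂ P ((algebraMap F N).comp φ) (algebraMap N Ω) c
    rw [show ((algebraMap N Ω) : N → Ω) = (Subtype.val) from rfl] at h1
    exact h1
  refine ⟨P, hP, ?_⟩
  have h3 : aeval (σ a) (P.map φ) = σ (aeval a (P.map φ)) :=
    aeval_algHom_apply σ.toAlgHom a (P.map φ)
  rw [← hev, h3]
  have h2 : aeval a (P.map φ) = 0 := by
    apply Subtype.ext
    rw [hev, hPa]
    rfl
  rw [h2, map_zero]
  rfl

/-- The decomposition group of the centre of `v` in `ON R N`. -/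
def decP (hB : Base v R F) (N : IntermediateField F Ω) : Subgroup (N ≃ₐ[F] N) where
  carrier := {σ | ∀ a : N, (a : Ω) ∈ ON R N → (VPos v (a : Ω) ↔ VPos v (σ a : Ω))}
  mul_mem' := by
    intro s t hs ht a ha
    rw [AlgEquiv.mul_apply, ht a ha, hs (t a) (aut_ON hB t ha)]
  one_mem' := fun _ _ => Iff.rfl
  inv_mem' := by
    intro s hs a ha
    have h1 := hs (s⁻¹ a) (aut_ON hB _ ha)
    rw [← AlgEquiv.mul_apply, mul_inv_cancel, AlgEquiv.one_apply] at h1
    exact h1.symm

theorem mem_decP {hB : Base v R F} {σ : N ≃ₐ[F] N} :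
    σ ∈ decP hB N ↔ ∀ a : N, (a : Ω) ∈ ON R N → (VPos v (a : Ω) ↔ VPos v (σ a : Ω)) := Iff.rfl

/-- One of the two implications is enough. -/
theorem mem_decP_of (hB : Base v R F) [FiniteDimensional F N] {σ : N ≃ₐ[F] N}
    (h : ∀ a : N, (a : Ω) ∈ ON R N → VPos v (σ a : Ω) → VPos v (a : Ω)) : σ ∈ decP hB N := by
  intro a ha
  refine ⟨fun hv => ?_, h a ha⟩
  have key : ∀ j : ℕ, VPos v (((σ ^ (j + 1)) a : N) : Ω) → VPos v (σ a : Ω) := by
    intro j
    induction j with
    | zero => intro h1; rwa [zero_add, pow_one] at h1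
    | succ j ih =>
      intro h1
      apply ih
      refine h _ (aut_ON hB _ ha) ?_
      rw [← AlgEquiv.mul_apply, ← pow_succ']
      exact h1
  have hfin : IsOfFinOrder σ := isOfFinOrder_of_finite σ
  have h2 := hfin.orderOf_pos
  apply key (orderOf σ - 1)
  rw [Nat.sub_add_cancel h2, pow_orderOf_eq_one]
  exact hv

end

section

variable {R : Subalgebra k Ω} {F : IntermediateField k Ω} {N : IntermediateField F Ω}

theorem CN_nonneg (hB : Base v R F) {g : Ω} (hg : g ∈ CN v R N) : v.Ge 0 g :=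
  locv_nonneg (fun _ h => ge_ON hB h) g hg

theorem alg_mul_self (A : Subalgebra k Ω) : A.toSubmodule * A.toSubmodule = A.toSubmodule := by
  refine le_antisymm ?_ ?_
  · rw [Submodule.mul_le]
    intro a ha b hb
    exact A.mul_mem ha hb
  · intro a ha
    have h1 := Submodule.mul_mem_mul (show (1 : Ω) ∈ A.toSubmodule from A.one_mem) ha
    rwa [one_mul] at h1

/-- An element of the centre has a power in `m_R C`. -/
theorem exists_pow (hB : Base v R F) {a : Ω} (ha : a ∈ ON R N) (hv : VPos v a) :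
    ∃ (e : ℕ) (S : Finset Ω), (∀ g ∈ S, g ∈ R ∧ VPos v g) ∧
      a ^ e ∈ Submodule.span k (S : Set Ω) * (CN v R N).toSubmodule := by
  classical
  obtain ⟨P, hP, hPa⟩ := (mem_ON.1 ha).1
  set n := P.natDegree with hn
  -- the smallest index with a unit coefficient
  have hex : ∃ i, ¬ VPos v ((P.coeff i : R) : Ω) := by
    refine ⟨n, ?_⟩
    rw [hP.coeff_natDegree]
    exact not_vpos (by simp) (by simpa using v.map_one)
  set e := Nat.find hex with he
  have h1 : ¬ VPos v ((P.coeff e : R) : Ω) := Nat.find_spec hex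
  have h2 : ∀ i < e, VPos v ((P.coeff i : R) : Ω) := fun i hi => not_not.1 (Nat.find_min hex hi)
  have hen : e ≤ n := Nat.find_min' hex (by
    rw [hP.coeff_natDegree]
    exact not_vpos (by simp) (by simpa using v.map_one))
  obtain ⟨h3, h4⟩ := (vpos_or (hB.nonneg _ (P.coeff e).2)).resolve_left h1
  -- the sum
  have hsum : ∑ i ∈ Finset.range (n + 1), ((P.coeff i : R) : Ω) * a ^ i = 0 := by
    rw [eval₂_eq_sum_range] at hPa
    exact hPa
  set u : Ω := ∑ i ∈ Finset.range (n + 1 - e), ((P.coeff (e + i) : R) : Ω) * a ^ i with hu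
  have hsplit : ∑ i ∈ Finset.range e, ((P.coeff i : R) : Ω) * a ^ i + a ^ e * u = 0 := by
    rw [← hsum, ← Finset.sum_range_add_sum_Ico _ (show e ≤ n + 1 by omega), hu,
      Finset.mul_sum, Finset.sum_Ico_eq_sum_range]
    congr 1
    refine Finset.sum_congr rfl fun i _ => ?_
    rw [pow_add]
    ring
  have hcoeffON : ∀ i, ((P.coeff i : R) : Ω) ∈ ON R N := fun i => le_ON hB (P.coeff i).2
  have huON : u ∈ ON R N := sum_mem fun i _ => mul_mem (hcoeffON _) (pow_mem ha _)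
  have huval : VPos v (u - ((P.coeff e : R) : Ω)) := by
    have h5 : n + 1 - e = (n - e) + 1 := by omega
    rw [hu, h5, Finset.sum_range_succ']
    simp only [add_zero, pow_zero, mul_one, add_sub_cancel_right]
    have : ∀ s : Finset ℕ, VPos v (∑ i ∈ s, ((P.coeff (e + (i + 1)) : R) : Ω) * a ^ (i + 1)) := by
      intro s
      induction s using Finset.induction_on with
      | empty => simpa using Pool.Agent.TAO.VPos.zero
      | insert i s hi ih =>
        rw [Finset.sum_insert hi]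
        exact (Pool.Agent.TAO.VPos.mul' (hB.nonneg _ (P.coeff _).2)
          (vpos_pow hv (Nat.succ_ne_zero i))).add ih
    exact this _
  have hu0 : u ≠ 0 ∧ v u = 0 := by
    refine (vpos_or (ge_ON hB huON)).resolve_left fun h5 => h1 ?_
    have h6 : ((P.coeff e : R) : Ω) = u - (u - ((P.coeff e : R) : Ω)) := by ring
    rw [h6]
    exact h5.sub huval
  have huinv : u⁻¹ ∈ CN v R N := locv_inv (le_locv _ huON) hu0.1 hu0.2
  refine ⟨e, (Finset.range e).image fun i => ((P.coeff i : R) : Ω), ?_, ?_⟩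
  · intro g hg
    obtain ⟨i, hi, rfl⟩ := Finset.mem_image.1 hg
    exact ⟨(P.coeff i).2, h2 i (Finset.mem_range.1 hi)⟩
  · have h7 : a ^ e = ∑ i ∈ Finset.range e, ((P.coeff i : R) : Ω) * (-(a ^ i * u⁻¹)) := by
      have h8 : a ^ e * u = -∑ i ∈ Finset.range e, ((P.coeff i : R) : Ω) * a ^ i := by
        linear_combination hsplit
      have h9 : a ^ e = (a ^ e * u) * u⁻¹ := by
        rw [mul_assoc, mul_inv_cancel₀ hu0.1, mul_one]
      rw [h9, h8, neg_mul, Finset.sum_mul, ← Finset.sum_neg_distrib]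
      refine Finset.sum_congr rfl fun i _ => ?_
      ring
    rw [h7]
    refine Submodule.sum_mem _ fun i hi => Submodule.mul_mem_mul ?_ ?_
    · exact Submodule.subset_span (by
        rw [Finset.mem_coe]
        exact Finset.mem_image_of_mem _ hi)
    · exact (CN v R N).neg_mem ((CN v R N).mul_mem (le_locv _ ((ON R N).pow_mem ha _)) huinv)

/-- The product of elements of value zero. -/
theorem prod_val {ι : Type*} (s : Finset ι) (f : ι → Ω) (hf : ∀ i ∈ s, f i ≠ 0 ∧ v (f i) = 0) :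
    ∏ i ∈ s, f i ≠ 0 ∧ v (∏ i ∈ s, f i) = 0 := by
  classical
  induction s using Finset.induction_on with
  | empty => simp [v.map_one]
  | insert i s hi ih =>
    rw [Finset.prod_insert hi]
    have h1 := hf i (Finset.mem_insert_self i s)
    have h2 := ih fun j hj => hf j (Finset.mem_insert_of_mem hj)
    exact ⟨mul_ne_zero h1.1 h2.1, by rw [v.map_mul h1.1 h2.1, h1.2, h2.2, add_zero]⟩

/-- A product of elements of nonnegative value one of which is in the maximal ideal. -/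
theorem prod_vpos {ι : Type*} (s : Finset ι) (f : ι → Ω) (hf : ∀ i ∈ s, v.Ge 0 (f i)) {i : ι}
    (hi : i ∈ s) (hv : VPos v (f i)) : VPos v (∏ i ∈ s, f i) := by
  classical
  rw [← Finset.mul_prod_erase s f hi]
  refine hv.mul ?_
  have h1 : ∀ t : Finset ι, t ⊆ s → v.Ge 0 (∏ i ∈ t, f i) := by
    intro t
    induction t using Finset.induction_on with
    | empty =>
      intro _ _
      simp [v.map_one]
    | insert j t hj ih =>
      intro ht
      rw [Finset.prod_insert hj]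
      have h2 := (hf j (ht (Finset.mem_insert_self j t))).mul
        (ih fun l hl => ht (Finset.mem_insert_of_mem hl))
      rwa [add_zero] at h2
  exact h1 _ (Finset.erase_subset _ _)

theorem coe_prod_N {ι : Type*} (s : Finset ι) (f : ι → N) :
    ((∏ i ∈ s, f i : N) : Ω) = ∏ i ∈ s, (f i : Ω) := by
  classical
  induction s using Finset.induction_on with
  | empty => simp
  | insert i s hi ih => rw [Finset.prod_insert hi, Finset.prod_insert hi, ← ih]; rfl

theorem coe_sum_N {ι : Type*} (s : Finset ι) (f : ι → N) :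
    ((∑ i ∈ s, f i : N) : Ω) = ∑ i ∈ s, (f i : Ω) := by
  classical
  induction s using Finset.induction_on with
  | empty => simp
  | insert i s hi ih => rw [Finset.sum_insert hi, Finset.sum_insert hi, ← ih]; rfl

/-- An element separating the primes. -/
theorem exists_b (hB : Base v R F) (hk : ∀ c : k, c ≠ 0 → v (algebraMap k Ω c) = 0)
    (hres : ∀ g : Ω, v.Ge 0 g → ∃ c : k, VPos v (g - algebraMap k Ω c))
    [FiniteDimensional F N] :
    ∃ b : N, (b : Ω) ∈ ON R N ∧ VPos v ((b : Ω) - 1) ∧ (∀ s ∈ decP hB N, s b = b) ∧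
      ∀ τ, τ ∉ decP hB N → VPos v (τ b : Ω) := by
  classical
  have h1 : ∀ τ : N ≃ₐ[F] N, τ ∉ decP hB N → ∃ a : N, (a : Ω) ∈ ON R N ∧ VPos v (τ a : Ω) ∧
      ¬ VPos v (a : Ω) := by
    intro τ hτ
    by_contra hcon
    push Not at hcon
    exact hτ (mem_decP_of hB hcon)
  choose! a ha1 ha2 ha3 using h1
  set b₀ : N := ∏ τ ∈ Finset.univ.filter (fun τ : N ≃ₐ[F] N => τ ∉ decP hB N), a τ with hb₀
  have hb₀ON : (b₀ : Ω) ∈ ON R N := by
    rw [hb₀, coe_prod_N]
    exact (ON R N).prod_mem fun τ hτ => ha1 τ (by simpa using hτ)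
  have hb₀val : (b₀ : Ω) ≠ 0 ∧ v (b₀ : Ω) = 0 := by
    rw [hb₀, coe_prod_N]
    refine prod_val _ _ fun τ hτ => ?_
    have hτ' : τ ∉ decP hB N := by simpa using hτ
    exact (vpos_or (ge_ON hB (ha1 τ hτ'))).resolve_left (ha3 τ hτ')
  have hb₀τ : ∀ τ, τ ∉ decP hB N → VPos v (τ b₀ : Ω) := by
    intro τ hτ
    rw [hb₀, map_prod, coe_prod_N]
    refine prod_vpos _ _ (fun τ' hτ' => ?_) (i := τ) (by simpa using hτ) (ha2 τ hτ)
    exact ge_ON hB (aut_ON hB τ (ha1 τ' (by simpa using hτ')))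
  set b₁ : N := ∏ s ∈ Finset.univ.filter (fun s : N ≃ₐ[F] N => s ∈ decP hB N), s b₀ with hb₁
  have hb₁ON : (b₁ : Ω) ∈ ON R N := by
    rw [hb₁, coe_prod_N]
    exact (ON R N).prod_mem fun s _ => aut_ON hB s hb₀ON
  have hb₁val : (b₁ : Ω) ≠ 0 ∧ v (b₁ : Ω) = 0 := by
    rw [hb₁, coe_prod_N]
    refine prod_val _ _ fun s hs => ?_
    have hs' : s ∈ decP hB N := by simpa using hs
    refine (vpos_or (ge_ON hB (aut_ON hB s hb₀ON))).resolve_left fun h2 => ?_
    exact not_vpos hb₀val.1 hb₀val.2 ((hs' b₀ hb₀ON).2 h2)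
  have hb₁τ : ∀ τ, τ ∉ decP hB N → VPos v (τ b₁ : Ω) := by
    intro τ hτ
    rw [hb₁, map_prod, coe_prod_N]
    refine prod_vpos _ _ (fun s _ => ge_ON hB (aut_ON hB τ (aut_ON hB s hb₀ON))) (i := 1)
      (by simp) ?_
    exact hb₀τ τ hτ
  have hb₁s : ∀ s ∈ decP hB N, s b₁ = b₁ := by
    intro s hs
    rw [hb₁, map_prod]
    refine Finset.prod_bij (fun t _ => s * t) ?_ ?_ ?_ ?_
    · intro t ht
      simp only [Finset.mem_filter, Finset.mem_univ, true_and] at ht ⊢
      exact (decP hB N).mul_mem hs ht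
    · intro t _ t' _ h2
      exact mul_left_cancel h2
    · intro t ht
      simp only [Finset.mem_filter, Finset.mem_univ, true_and] at ht
      refine ⟨s⁻¹ * t, ?_, ?_⟩
      · simp only [Finset.mem_filter, Finset.mem_univ, true_and]
        exact (decP hB N).mul_mem ((decP hB N).inv_mem hs) ht
      · rw [mul_inv_cancel_left]
    · intro t _
      rfl
  obtain ⟨c, hc⟩ := hres _ (ge_ON hB hb₁ON)
  have hc0 : c ≠ 0 := by
    rintro rfl
    rw [map_zero, sub_zero] at hc
    exact not_vpos hb₁val.1 hb₁val.2 hc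
  set c' : N := algebraMap F N (algebraMap k F c⁻¹) with hc'
  have hcΩ : (c' : Ω) = algebraMap k Ω c⁻¹ := rfl
  have hcge : v.Ge 0 (algebraMap k Ω c⁻¹) := fun _ => by rw [hk _ (inv_ne_zero hc0)]
  have hcON : (c' : Ω) ∈ ON R N := by
    rw [hcΩ]
    exact (ON R N).algebraMap_mem _
  refine ⟨c' * b₁, ?_, ?_, ?_, ?_⟩
  · exact (ON R N).mul_mem hcON hb₁ON
  · have h2 : ((c' * b₁ : N) : Ω) - 1 = algebraMap k Ω c⁻¹ * ((b₁ : Ω) - algebraMap k Ω c) := by
      have h3 : algebraMap k Ω c⁻¹ * algebraMap k Ω c = 1 := by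
        rw [← map_mul, inv_mul_cancel₀ hc0, map_one]
      rw [mul_sub, h3, ← hcΩ]
      rfl
    rw [h2]
    exact Pool.Agent.TAO.VPos.mul' hcge hc
  · intro s hs
    rw [map_mul, hb₁s s hs, hc', AlgEquiv.commutes]
  · intro τ hτ
    rw [map_mul, hc', AlgEquiv.commutes]
    exact Pool.Agent.TAO.VPos.mul' hcge (hb₁τ τ hτ)

/-- The trace over the cosets of the decomposition group. -/
theorem exists_trace (hB : Base v R F) [FiniteDimensional F N] [IsGalois F N] :
    ∃ Q : Finset (N ≃ₐ[F] N), 1 ∈ Q ∧ (∀ τ ∈ Q, τ ≠ 1 → τ ∉ decP hB N) ∧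
      ∀ a : N, (a : Ω) ∈ ON R N → (∀ s ∈ decP hB N, s a = a) →
        (∑ τ ∈ Q, (τ a : Ω)) ∈ R := by
  classical
  set H := decP hB N with hH
  have : Fintype ((N ≃ₐ[F] N) ⧸ H) := Fintype.ofFinite _
  set rep : (N ≃ₐ[F] N) ⧸ H → (N ≃ₐ[F] N) := fun q =>
    if q = QuotientGroup.mk 1 then 1 else q.out with hrep
  have hmk : ∀ q, QuotientGroup.mk (rep q) = q := by
    intro q
    simp only [hrep]
    split_ifs with h
    · exact h.symm
    · exact Quotient.out_eq q
  have hinj : Function.Injective rep := by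
    intro q q' h
    rw [← hmk q, ← hmk q', h]
  refine ⟨Finset.univ.image rep, ?_, ?_, ?_⟩
  · refine Finset.mem_image.2 ⟨QuotientGroup.mk 1, Finset.mem_univ _, ?_⟩
    simp [hrep]
  · intro τ hτ hne hmem
    obtain ⟨q, -, rfl⟩ := Finset.mem_image.1 hτ
    apply hne
    have h1 : q = QuotientGroup.mk 1 := by
      rw [← hmk q, eq_comm, QuotientGroup.eq, inv_one, one_mul]
      exact hmem
    simp only [hrep]
    rw [if_pos h1]
  · intro a ha hfix
    have hcl : ∀ σ σ' : N ≃ₐ[F] N, (QuotientGroup.mk σ : (N ≃ₐ[F] N) ⧸ H) =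
        QuotientGroup.mk σ' → σ a = σ' a := by
      intro σ σ' h
      rw [QuotientGroup.eq] at h
      have h1 := hfix _ h
      rw [AlgEquiv.mul_apply] at h1
      have h2 := congrArg σ h1
      rw [← AlgEquiv.mul_apply, mul_inv_cancel, AlgEquiv.one_apply] at h2
      exact h2.symm
    set t : N := ∑ q, rep q a with ht
    have htfix : ∀ σ : N ≃ₐ[F] N, σ t = t := by
      intro σ
      rw [ht, map_sum]
      refine Fintype.sum_equiv (MulAction.toPerm σ) _ _ fun q => ?_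
      rw [← AlgEquiv.mul_apply]
      apply hcl
      rw [hmk]
      change _ = σ • q
      conv_rhs => rw [← hmk q]
      rfl
    have htF : t ∈ Set.range (algebraMap F N) := by
      rw [IsGalois.mem_range_algebraMap_iff_fixed]
      exact htfix
    obtain ⟨f, hf⟩ := htF
    have h1 : (∑ τ ∈ Finset.univ.image rep, (τ a : Ω)) = (t : Ω) := by
      rw [Finset.sum_image (fun q _ q' _ h => hinj h), ht, coe_sum_N]
    rw [h1]
    have h2 : (t : Ω) ∈ ON R N := by
      rw [ht, coe_sum_N]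
      exact (ON R N).sum_mem fun q _ => aut_ON hB _ ha
    refine hB.normal _ ?_ (mem_ON.1 h2).1
    rw [← hf]
    exact f.2

/-- The space `I^M C`. -/
theorem pow_mul_le (A : Subalgebra k Ω) (I : Submodule k Ω) (M : ℕ) :
    (I * A.toSubmodule) ^ M ≤ I ^ M * A.toSubmodule := by
  induction M with
  | zero =>
    rw [pow_zero, pow_zero, one_mul, Submodule.one_le]
    exact A.one_mem
  | succ M ih =>
    calc (I * A.toSubmodule) ^ (M + 1) = (I * A.toSubmodule) ^ M * (I * A.toSubmodule) := pow_succ _ _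
      _ ≤ I ^ M * A.toSubmodule * (I * A.toSubmodule) := mul_le_mul' ih le_rfl
      _ = I ^ (M + 1) * (A.toSubmodule * A.toSubmodule) := by rw [pow_succ]; ring
      _ = I ^ (M + 1) * A.toSubmodule := by rw [alg_mul_self]

theorem mul_mem_IC {A : Subalgebra k Ω} {I : Submodule k Ω} {M : ℕ} {g c : Ω}
    (hg : g ∈ I ^ M * A.toSubmodule) (hc : c ∈ A) : c * g ∈ I ^ M * A.toSubmodule := by
  have h1 := Submodule.mul_mem_mul hg (show c ∈ A.toSubmodule from hc)
  rw [mul_assoc, alg_mul_self] at h1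
  rwa [mul_comm g c] at h1

theorem vpos_pow_sub_one {b : Ω} (hb : v.Ge 0 b) (hb1 : VPos v (b - 1)) (j : ℕ) :
    VPos v (b ^ j - 1) := by
  induction j with
  | zero => simpa using Pool.Agent.TAO.VPos.zero
  | succ j ih =>
    have h1 : b ^ (j + 1) - 1 = b * (b ^ j - 1) + (b - 1) := by ring
    rw [h1]
    exact (Pool.Agent.TAO.VPos.mul' hb ih).add hb1

/-- (S3d): the elements of the localized ring fixed by the decomposition group are approximated
by elements of `R`. -/
theorem approx_fin (hB : Base v R F) (hk : ∀ c : k, c ≠ 0 → v (algebraMap k Ω c) = 0)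
    (hres : ∀ g : Ω, v.Ge 0 g → ∃ c : k, VPos v (g - algebraMap k Ω c))
    [FiniteDimensional F N] [IsGalois F N] :
    ∃ S : Finset Ω, (∀ g ∈ S, g ∈ R ∧ VPos v g) ∧ ∀ d : N, (d : Ω) ∈ CN v R N →
      (∀ s ∈ decP hB N, s d = d) → ∀ M : ℕ, ∃ f ∈ R,
        (d : Ω) - f ∈ Submodule.span k (S : Set Ω) ^ M * (CN v R N).toSubmodule := by
  classical
  obtain ⟨b, hbON, hb1, hbs, hbτ⟩ := exists_b (N := N) hB hk hres
  obtain ⟨Q, hQ1, hQτ, hQR⟩ := exists_trace (N := N) hB
  have hpow : ∀ τ : N ≃ₐ[F] N, τ ∉ decP hB N → ∃ (e : ℕ) (S : Finset Ω),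
      (∀ g ∈ S, g ∈ R ∧ VPos v g) ∧ (τ b : Ω) ^ e ∈ Submodule.span k (S : Set Ω) *
        (CN v R N).toSubmodule := fun τ hτ => exists_pow hB (aut_ON hB τ hbON) (hbτ τ hτ)
  choose! e S hS1 hS2 using hpow
  set Q' := Q.erase 1 with hQ'
  have hQ'τ : ∀ τ ∈ Q', τ ∉ decP hB N := fun τ hτ =>
    hQτ τ (Finset.mem_of_mem_erase hτ) (Finset.ne_of_mem_erase hτ)
  set I : Submodule k Ω := Submodule.span k ((Q'.biUnion S : Finset Ω) : Set Ω) with hI
  set C : Subalgebra k Ω := CN v R N with hC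
  have hRC : ∀ f ∈ R, f ∈ C := fun f hf => le_locv _ (le_ON hB hf)
  have hONC : ∀ f ∈ ON R N, f ∈ C := fun f hf => le_locv _ hf
  have hIS : ∀ τ ∈ Q', Submodule.span k (S τ : Set Ω) ≤ I := by
    intro τ hτ
    refine Submodule.span_mono ?_
    intro g hg
    rw [Finset.mem_coe] at hg ⊢
    exact Finset.mem_biUnion.2 ⟨τ, hτ, hg⟩
  set E : ℕ := Q'.sup e with hE
  have hτE : ∀ τ ∈ Q', ∀ M : ℕ, ∀ j : ℕ, E * M ≤ j → (τ b : Ω) ^ j ∈ I ^ M * C.toSubmodule := by
    intro τ hτ M j hj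
    have h1 : (τ b : Ω) ^ E ∈ I * C.toSubmodule := by
      have h2 : e τ ≤ E := Finset.le_sup (f := e) hτ
      have h3 : (τ b : Ω) ^ E = (τ b : Ω) ^ (E - e τ) * (τ b : Ω) ^ (e τ) := by
        rw [← pow_add]
        congr 1
        omega
      rw [h3]
      have h4 : (τ b : Ω) ^ (e τ) ∈ I ^ 1 * C.toSubmodule := by
        rw [pow_one]
        exact mul_le_mul' (hIS τ hτ) le_rfl (hS2 τ (hQ'τ τ hτ))
      have h5 := mul_mem_IC h4 (C.pow_mem (hONC _ (aut_ON hB τ hbON)) (E - e τ))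
      rwa [pow_one] at h5
    have h2 : ((τ b : Ω) ^ E) ^ M ∈ (I * C.toSubmodule) ^ M := Submodule.pow_mem_pow _ h1 _
    have h3 := pow_mul_le C I M h2
    have h4 : (τ b : Ω) ^ j = (τ b : Ω) ^ (j - E * M) * ((τ b : Ω) ^ E) ^ M := by
      rw [← pow_mul, ← pow_add]
      congr 1
      omega
    rw [h4]
    exact mul_mem_IC h3 (C.pow_mem (hONC _ (aut_ON hB τ hbON)) _)
  -- integral elements
  have step1 : ∀ a : N, (a : Ω) ∈ ON R N → (∀ s ∈ decP hB N, s a = a) → ∀ M : ℕ, ∃ f ∈ R,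
      (a : Ω) - f ∈ I ^ M * C.toSubmodule := by
    intro a ha hfix M
    set j : ℕ := E * M + 1 with hj
    have hbjON : ((b ^ j : N) : Ω) ∈ ON R N := by
      push_cast
      exact (ON R N).pow_mem hbON j
    set t : Ω := ∑ τ ∈ Q, (τ (b ^ j) : Ω) with ht
    have htR : t ∈ R := hQR (b ^ j) hbjON fun s hs => by rw [map_pow, hbs s hs]
    have ht1 : VPos v (t - 1) := by
      rw [ht, ← Finset.add_sum_erase Q _ hQ1]
      have h1 : ((1 : N ≃ₐ[F] N) (b ^ j) : Ω) + ∑ τ ∈ Q.erase 1, (τ (b ^ j) : Ω) - 1 =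
          ((b : Ω) ^ j - 1) + ∑ τ ∈ Q', (τ (b ^ j) : Ω) := by
        rw [AlgEquiv.one_apply]
        push_cast
        ring
      rw [h1]
      refine (vpos_pow_sub_one (ge_ON hB hbON) hb1 j).add ?_
      have h2 : ∀ s : Finset (N ≃ₐ[F] N), s ⊆ Q' → VPos v (∑ τ ∈ s, (τ (b ^ j) : Ω)) := by
        intro s
        induction s using Finset.induction_on with
        | empty =>
          intro _
          simpa using Pool.Agent.TAO.VPos.zero
        | insert τ s hτ ih =>
          intro hs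
          rw [Finset.sum_insert hτ]
          refine Pool.Agent.TAO.VPos.add ?_ (ih fun x hx => hs (Finset.mem_insert_of_mem hx))
          rw [map_pow]
          push_cast
          exact vpos_pow (hbτ τ (hQ'τ τ (hs (Finset.mem_insert_self τ s)))) (by omega)
      exact h2 _ subset_rfl
    have ht0 : t ≠ 0 ∧ v t = 0 := by
      refine (vpos_or (hB.nonneg t htR)).resolve_left fun h2 => ?_
      have h3 : VPos v (1 : Ω) := by
        have h4 : (1 : Ω) = t - (t - 1) := by ring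
        rw [h4]
        exact h2.sub ht1
      exact not_vpos one_ne_zero v.map_one h3
    have htinv : t⁻¹ ∈ R := hB.loc t htR ht0.1 ht0.2
    have habON : ((a * b ^ j : N) : Ω) ∈ ON R N := by
      push_cast
      exact (ON R N).mul_mem ha ((ON R N).pow_mem hbON j)
    have hsR : (∑ τ ∈ Q, (τ (a * b ^ j) : Ω)) ∈ R := hQR _ habON fun s hs => by
      rw [map_mul, map_pow, hbs s hs, hfix s hs]
    refine ⟨(∑ τ ∈ Q, (τ (a * b ^ j) : Ω)) * t⁻¹, R.mul_mem hsR htinv, ?_⟩
    have h1 : (a : Ω) - (∑ τ ∈ Q, (τ (a * b ^ j) : Ω)) * t⁻¹ =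
        t⁻¹ * ∑ τ ∈ Q', (((a : Ω) - (τ a : Ω)) * (τ b : Ω) ^ j) := by
      have h2 : (a : Ω) = t⁻¹ * ((a : Ω) * t) := by
        rw [mul_comm, mul_assoc, mul_inv_cancel₀ ht0.1, mul_one]
      have h3 : (a : Ω) * t - ∑ τ ∈ Q, (τ (a * b ^ j) : Ω) =
          ∑ τ ∈ Q', (((a : Ω) - (τ a : Ω)) * (τ b : Ω) ^ j) := by
        rw [ht, Finset.mul_sum, ← Finset.sum_sub_distrib, ← Finset.add_sum_erase Q _ hQ1]
        have h4 : (a : Ω) * ((1 : N ≃ₐ[F] N) (b ^ j) : Ω) - ((1 : N ≃ₐ[F] N) (a * b ^ j) : Ω) =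
            0 := by
          rw [AlgEquiv.one_apply, AlgEquiv.one_apply]
          push_cast
          ring
        rw [h4, zero_add]
        refine Finset.sum_congr rfl fun τ _ => ?_
        rw [map_mul, map_pow]
        push_cast
        ring
      rw [← h3, mul_sub, ← h2]
      ring
    rw [h1]
    refine mul_mem_IC (Submodule.sum_mem _ fun τ hτ => ?_) (hRC _ htinv)
    refine mul_mem_IC (hτE τ hτ M j (by omega)) ?_
    exact C.sub_mem (hONC _ ha) (hONC _ (aut_ON hB τ ha))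
  refine ⟨Q'.biUnion S, ?_, ?_⟩
  · intro g hg
    obtain ⟨τ, hτ, hg⟩ := Finset.mem_biUnion.1 hg
    exact hS1 τ (hQ'τ τ hτ) g hg
  intro d hd hfix M
  rw [← hI]
  rcases Nat.eq_zero_or_pos M with hM | hM
  · subst hM
    refine ⟨0, R.zero_mem, ?_⟩
    rw [sub_zero, pow_zero, one_mul]
    exact hd
  -- the denominator
  obtain ⟨a, ha, s₀, hs₀, hs₀0, hvs₀, hdeq⟩ := hd
  have hs₀N : s₀ ∈ N := (mem_ON.1 hs₀).2
  set s₁ : N := ⟨s₀, hs₀N⟩ with hs₁
  set D := Finset.univ.filter (fun s : N ≃ₐ[F] N => s ∈ decP hB N) with hD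
  set w : N := ∏ s ∈ D, s s₁ with hw
  have h1D : (1 : N ≃ₐ[F] N) ∈ D := by
    rw [hD, Finset.mem_filter]
    exact ⟨Finset.mem_univ _, (decP hB N).one_mem⟩
  have hwON : (w : Ω) ∈ ON R N := by
    rw [hw, coe_prod_N]
    exact (ON R N).prod_mem fun s _ => aut_ON hB s hs₀
  have hwval : (w : Ω) ≠ 0 ∧ v (w : Ω) = 0 := by
    rw [hw, coe_prod_N]
    refine prod_val _ _ fun s hs => ?_
    have hs' : s ∈ decP hB N := by simpa [hD] using hs
    refine (vpos_or (ge_ON hB (aut_ON hB s hs₀))).resolve_left fun h2 => ?_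
    exact not_vpos hs₀0 hvs₀ ((hs' s₁ hs₀).2 h2)
  have hws : ∀ s ∈ decP hB N, s w = w := by
    intro s hs
    rw [hw, map_prod]
    refine Finset.prod_bij (fun t _ => s * t) ?_ ?_ ?_ ?_
    · intro t ht
      simp only [hD, Finset.mem_filter, Finset.mem_univ, true_and] at ht ⊢
      exact (decP hB N).mul_mem hs ht
    · intro t _ t' _ h2
      exact mul_left_cancel h2
    · intro t ht
      simp only [hD, Finset.mem_filter, Finset.mem_univ, true_and] at ht
      refine ⟨s⁻¹ * t, ?_, ?_⟩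
      · simp only [hD, Finset.mem_filter, Finset.mem_univ, true_and]
        exact (decP hB N).mul_mem ((decP hB N).inv_mem hs) ht
      · rw [mul_inv_cancel_left]
    · intro t _
      rfl
  have hdwON : ((d * w : N) : Ω) ∈ ON R N := by
    have h2 : ((d * w : N) : Ω) = a * ∏ s ∈ D.erase 1, (s s₁ : Ω) := by
      rw [hw, ← Finset.mul_prod_erase D _ h1D, AlgEquiv.one_apply]
      push_cast
      rw [hdeq]
      change a / s₀ * (s₀ * _) = _
      rw [← mul_assoc, div_mul_cancel₀ _ hs₀0]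
    rw [h2]
    exact (ON R N).mul_mem ha ((ON R N).prod_mem fun s _ => aut_ON hB s hs₀)
  have hdws : ∀ s ∈ decP hB N, s (d * w) = d * w := by
    intro s hs
    rw [map_mul, hws s hs, hfix s hs]
  obtain ⟨f₁, hf₁, hf₁'⟩ := step1 _ hdwON hdws M
  obtain ⟨f₂, hf₂, hf₂'⟩ := step1 _ hwON hws M
  -- the second approximation is a unit
  have hIpos : ∀ g ∈ I ^ M * C.toSubmodule, VPos v g := by
    have hI1 : ∀ g ∈ I, VPos v g ∧ g ∈ C := by
      intro g hg
      rw [hI] at hg
      induction hg using Submodule.span_induction with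
      | mem g hg =>
        obtain ⟨τ, hτ, hg⟩ := Finset.mem_biUnion.1 (Finset.mem_coe.1 hg)
        have := hS1 τ (hQ'τ τ hτ) g hg
        exact ⟨this.2, hRC _ this.1⟩
      | zero => exact ⟨Pool.Agent.TAO.VPos.zero, C.zero_mem⟩
      | add g h _ _ hg hh => exact ⟨hg.1.add hh.1, C.add_mem hg.2 hh.2⟩
      | smul c g _ hg =>
        refine ⟨?_, C.smul_mem hg.2 c⟩
        rw [Algebra.smul_def]
        refine Pool.Agent.TAO.VPos.mul' ?_ hg.1
        intro hc
        rw [hk c (by rintro rfl; exact hc (map_zero _))]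
    have hIM : ∀ g ∈ I ^ M, VPos v g ∧ g ∈ C := by
      obtain ⟨M', rfl⟩ : ∃ M', M = M' + 1 := ⟨M - 1, by omega⟩
      clear hM hf₁' hf₂'
      induction M' with
      | zero => rwa [zero_add, pow_one]
      | succ M' ih =>
        intro g hg
        rw [pow_succ] at hg
        refine Submodule.mul_induction_on hg ?_ ?_
        · intro x hx z hz
          exact ⟨(ih x hx).1.mul (hI1 z hz).1.ge, C.mul_mem (ih x hx).2 (hI1 z hz).2⟩
        · intro x z hx hz
          exact ⟨hx.1.add hz.1, C.add_mem hx.2 hz.2⟩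
    intro g hg
    refine Submodule.mul_induction_on hg ?_ ?_
    · intro x hx z hz
      exact (hIM x hx).1.mul (CN_nonneg hB hz)
    · intro x z hx hz
      exact hx.add hz
  have hf₂0 : f₂ ≠ 0 ∧ v f₂ = 0 := by
    refine (vpos_or (hB.nonneg f₂ hf₂)).resolve_left fun h2 => ?_
    have h3 : VPos v (w : Ω) := by
      have h4 : (w : Ω) = ((w : Ω) - f₂) + f₂ := by ring
      rw [h4]
      exact (hIpos _ hf₂').add h2
    exact not_vpos hwval.1 hwval.2 h3
  have hf₂inv : f₂⁻¹ ∈ R := hB.loc _ hf₂ hf₂0.1 hf₂0.2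
  have hwinv : (w : Ω)⁻¹ ∈ C := locv_inv (hONC _ hwON) hwval.1 hwval.2
  refine ⟨f₁ * f₂⁻¹, R.mul_mem hf₁ hf₂inv, ?_⟩
  have h5 : (d : Ω) - f₁ * f₂⁻¹ = (w : Ω)⁻¹ * (((d * w : N) : Ω) - f₁) +
      (-(f₁ * f₂⁻¹ * (w : Ω)⁻¹)) * ((w : Ω) - f₂) := by
    have h6 := hwval.1
    have h7 := hf₂0.1
    push_cast
    field_simp
    ring
  rw [h5]
  refine Submodule.add_mem _ (mul_mem_IC hf₁' hwinv) (mul_mem_IC hf₂' ?_)
  exact C.neg_mem (C.mul_mem (C.mul_mem (hRC _ hf₁) (hRC _ hf₂inv)) hwinv)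

end

end Pool.Agent.ALLO5
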