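import Pool.Agent.Lib.ALLO_h5.Gen
import Pool.Agent.Lib.TAO.Cone

/-!
# Local uniformization for every defect: section 3, initial forms for a monomial valuation

See `b525bf_ALLDEFECT_h21.md`, section 3.
-/

set_option autoImplicit false

namespace Pool.Agent.ALLO5

open Pool.Agent.TAO (OVal)
open Pool.Agent.TAO (VPos)
open Pool.Agent.TAO (mx)

universe u w

variable {k Ω : Type u} [Field k] [Field Ω] [Algebra k Ω]
  {𝕂 : Type w} [Field 𝕂] [LinearOrder 𝕂] [IsStrictOrderedRing 𝕂] {r D : ℕ}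

/-- `ω` is a monomial valuation on `k[x, y]`: the weight of `x i` is `M₀`, the weight of `y j`
is `1`. -/
structure WOrd (k : Type u) {Ω : Type u} [Field k] [Field Ω] [Algebra k Ω] {r D : ℕ}
    (ω : OVal 𝕂 Ω) (M₀ : ℕ) (x : Fin r → Ω) (y : Fin D → Ω) : Prop where
  x_ne : ∀ i, x i ≠ 0
  hx : ∀ i, ω (x i) = M₀
  hy : ∀ j, y j ≠ 0 ∧ ω (y j) = 1
  hk : ∀ c : k, c ≠ 0 → ω (algebraMap k Ω c) = 0
  hP : ∀ P : MvPolynomial (Fin r ⊕ Fin D) k, P ≠ 0 →
    MvPolynomial.aeval (Sum.elim x y) P ≠ (0 : Ω) ∧ ∀ d ∈ P.support,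
      ω (MvPolynomial.aeval (Sum.elim x y) P) ≤
        ((M₀ * ∑ i, d (Sum.inl i) + ∑ j, d (Sum.inr j) : ℕ) : 𝕂)

/-- The weights. -/
def wts (r D M₀ : ℕ) : (Fin r ⊕ Fin D) → ℕ := Sum.elim (fun _ => M₀) (fun _ => 1)

theorem weight_wts (M₀ : ℕ) (d : (Fin r ⊕ Fin D) →₀ ℕ) :
    Finsupp.weight (wts r D M₀) d = M₀ * ∑ i, d (Sum.inl i) + ∑ j, d (Sum.inr j) := by
  rw [Finsupp.weight_apply, Finsupp.sum_fintype _ _ (by simp), Fintype.sum_sum_type,
    Finset.mul_sum]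
  congr 1
  · exact Finset.sum_congr rfl fun i _ => by simp [wts, mul_comm]
  · exact Finset.sum_congr rfl fun i _ => by simp [wts]

theorem weighted_rename {Φ : MvPolynomial (Fin D) k} {M : ℕ} (hΦ : Φ.IsHomogeneous M) (M₀ : ℕ) :
    (MvPolynomial.rename (Sum.inr : Fin D → Fin r ⊕ Fin D) Φ).IsWeightedHomogeneous
      (wts r D M₀) M := by
  classical
  rw [Φ.as_sum, map_sum]
  refine MvPolynomial.IsWeightedHomogeneous.sum _ _ _ fun d hd => ?_
  rw [MvPolynomial.rename_monomial]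
  refine MvPolynomial.isWeightedHomogeneous_monomial _ _ _ ?_
  have h1 : Finsupp.degree d = M := by
    have := hΦ (MvPolynomial.mem_support_iff.1 hd)
    rwa [Pi.one_def, ← Finsupp.degree_eq_weight_one] at this
  rw [weight_wts, ← h1]
  have h2 : ∀ i : Fin r, (Finsupp.mapDomain (Sum.inr : Fin D → Fin r ⊕ Fin D) d) (Sum.inl i) = 0 :=
    fun i => Finsupp.mapDomain_of_notMem_range _ _ (by simp)
  have h3 : ∀ j : Fin D, (Finsupp.mapDomain (Sum.inr : Fin D → Fin r ⊕ Fin D) d) (Sum.inr j) =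
      d j := fun j => Finsupp.mapDomain_apply Sum.inr_injective _ _
  simp only [h2, h3, Finset.sum_const_zero, mul_zero, zero_add]
  rw [Finsupp.degree_eq_sum]

namespace WOrd

variable {ω : OVal 𝕂 Ω} {M₀ : ℕ} {x : Fin r → Ω} {y : Fin D → Ω}

theorem ge_k (h : WOrd k ω M₀ x y) (c : k) : ω.Ge 0 (algebraMap k Ω c) := by
  intro hc
  have : c ≠ 0 := by
    rintro rfl
    exact hc (map_zero _)
  rw [h.hk c this]

theorem aeval_rename (x : Fin r → Ω) (y : Fin D → Ω) (Φ : MvPolynomial (Fin D) k) :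
    MvPolynomial.aeval (Sum.elim x y) (MvPolynomial.rename (Sum.inr : Fin D → Fin r ⊕ Fin D) Φ) =
      (MvPolynomial.aeval y Φ : Ω) := by
  rw [MvPolynomial.aeval_rename]
  rfl

/-- A monomial in `y`. -/
theorem ge_mon (h : WOrd k ω M₀ x y) (d : Fin D →₀ ℕ) (c : k) :
    ω.Ge (Finsupp.degree d : ℕ) (MvPolynomial.aeval y (MvPolynomial.monomial d c) : Ω) := by
  classical
  rw [MvPolynomial.aeval_monomial, Finsupp.prod_fintype _ _ (by simp)]
  have h1 : ω.Ge (∑ j : Fin D, ((d j : ℕ) : 𝕂)) (∏ j, y j ^ d j) := by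
    refine OVal.Ge.prod (fun j => ((d j : ℕ) : 𝕂)) Finset.univ _ fun j _ => ?_
    intro _
    rw [ω.map_pow (h.hy j).1, (h.hy j).2, mul_one]
  have h2 := (h.ge_k c).mul h1
  refine h2.mono ?_
  rw [Finsupp.degree_eq_sum]
  push_cast
  linarith

theorem ge_hom (h : WOrd k ω M₀ x y) {Φ : MvPolynomial (Fin D) k} {M : ℕ}
    (hΦ : ∀ d ∈ Φ.support, M ≤ Finsupp.degree d) :
    ω.Ge M (MvPolynomial.aeval y Φ : Ω) := by
  classical
  rw [Φ.as_sum, map_sum]
  refine OVal.Ge.sum _ _ fun d hd => ?_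
  refine (h.ge_mon d _).mono ?_
  exact_mod_cast hΦ d hd

theorem ne_of_hom (h : WOrd k ω M₀ x y) {Φ : MvPolynomial (Fin D) k} (h0 : Φ ≠ 0) :
    (MvPolynomial.aeval y Φ : Ω) ≠ 0 := by
  have h1 : MvPolynomial.rename (Sum.inr : Fin D → Fin r ⊕ Fin D) Φ ≠ 0 := by
    rw [Ne, map_eq_zero_iff _ (MvPolynomial.rename_injective _ Sum.inr_injective)]
    exact h0
  have h2 := (h.hP _ h1).1
  rwa [aeval_rename] at h2

theorem deg_hom {Φ : MvPolynomial (Fin D) k} {M : ℕ} (hΦ : Φ.IsHomogeneous M) :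
    ∀ d ∈ Φ.support, M ≤ Finsupp.degree d := by
  intro d hd
  have := hΦ (MvPolynomial.mem_support_iff.1 hd)
  rw [Pi.one_def, ← Finsupp.degree_eq_weight_one] at this
  exact this.ge

theorem val_hom (h : WOrd k ω M₀ x y) {Φ : MvPolynomial (Fin D) k} {M : ℕ}
    (hΦ : Φ.IsHomogeneous M) (h0 : Φ ≠ 0) : ω (MvPolynomial.aeval y Φ : Ω) = M := by
  classical
  refine le_antisymm ?_ (h.ge_hom (deg_hom hΦ) (h.ne_of_hom h0))
  have h1 : MvPolynomial.rename (Sum.inr : Fin D → Fin r ⊕ Fin D) Φ ≠ 0 := by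
    rw [Ne, map_eq_zero_iff _ (MvPolynomial.rename_injective _ Sum.inr_injective)]
    exact h0
  obtain ⟨d, hd⟩ := MvPolynomial.support_nonempty.2 h1
  have h2 := (h.hP _ h1).2 d hd
  rw [aeval_rename] at h2
  refine h2.trans (le_of_eq ?_)
  have h3 := weighted_rename (r := r) hΦ M₀ (MvPolynomial.mem_support_iff.1 hd)
  rw [weight_wts] at h3
  rw [h3]

end WOrd

/-- The polynomial `X^u Φ(Y)`. -/
noncomputable def xp (u : Fin r → ℕ) (Φ : MvPolynomial (Fin D) k) :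
    MvPolynomial (Fin r ⊕ Fin D) k :=
  (∏ i, MvPolynomial.X (Sum.inl i) ^ u i) * MvPolynomial.rename Sum.inr Φ

theorem xp_weighted {Φ : MvPolynomial (Fin D) k} {M : ℕ} (hΦ : Φ.IsHomogeneous M) (M₀ : ℕ)
    (u : Fin r → ℕ) : (xp u Φ).IsWeightedHomogeneous (wts r D M₀) (M₀ * ∑ i, u i + M) := by
  classical
  refine MvPolynomial.IsWeightedHomogeneous.mul ?_ (weighted_rename hΦ M₀)
  rw [Finset.mul_sum]
  refine MvPolynomial.IsWeightedHomogeneous.prod _ _ _ fun i _ => ?_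
  have h1 := (MvPolynomial.isWeightedHomogeneous_X k (wts r D M₀) (Sum.inl i)).pow (u i)
  rw [smul_eq_mul, mul_comm] at h1
  exact h1

theorem aeval_xp (x : Fin r → Ω) (y : Fin D → Ω) (u : Fin r → ℕ) (Φ : MvPolynomial (Fin D) k) :
    MvPolynomial.aeval (Sum.elim x y) (xp u Φ) =
      (∏ i, x i ^ u i) * (MvPolynomial.aeval y Φ : Ω) := by
  rw [xp, map_mul, WOrd.aeval_rename, map_prod]
  congr 1
  refine Finset.prod_congr rfl fun i _ => ?_
  rw [map_pow, MvPolynomial.aeval_X]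
  rfl

/-- Setting `X = 1`. -/
theorem xp_one (u : Fin r → ℕ) (Φ : MvPolynomial (Fin D) k) :
    MvPolynomial.aeval (Sum.elim (fun _ => (1 : MvPolynomial (Fin D) k))
      (MvPolynomial.X : Fin D → MvPolynomial (Fin D) k)) (xp u Φ) = Φ := by
  rw [xp, map_mul, map_prod, MvPolynomial.aeval_rename]
  have h1 : ∏ i, MvPolynomial.aeval (Sum.elim (fun _ => (1 : MvPolynomial (Fin D) k))
      (MvPolynomial.X : Fin D → MvPolynomial (Fin D) k))
      ((MvPolynomial.X (Sum.inl i) : MvPolynomial (Fin r ⊕ Fin D) k) ^ u i) = 1 := by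
    refine Finset.prod_eq_one fun i _ => ?_
    rw [map_pow, MvPolynomial.aeval_X, Sum.elim_inl, one_pow]
  rw [h1, one_mul]
  exact MvPolynomial.aeval_X_left_apply Φ

section

variable {ω : OVal 𝕂 Ω} {M₀ : ℕ} {x : Fin r → Ω} {y : Fin D → Ω}

/-- Two monomial forms of the same value whose difference has larger value are equal. -/
theorem xp_eq (h : WOrd k ω M₀ x y) {u u' : Fin r → ℕ} {Φ Φ' : MvPolynomial (Fin D) k}
    {M M' : ℕ} (hΦ : Φ.IsHomogeneous M) (hΦ' : Φ'.IsHomogeneous M')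
    (hw : M₀ * ∑ i, u i + M = M₀ * ∑ i, u' i + M') {c : 𝕂}
    (hc : ((M₀ * ∑ i, u i + M : ℕ) : 𝕂) < c)
    (hge : ω.Ge c ((∏ i, x i ^ u i) * (MvPolynomial.aeval y Φ : Ω) -
      (∏ i, x i ^ u' i) * (MvPolynomial.aeval y Φ' : Ω))) : Φ = Φ' := by
  classical
  have h1 : xp u Φ - xp u' Φ' = 0 := by
    by_contra hne
    obtain ⟨d, hd⟩ := MvPolynomial.support_nonempty.2 hne
    have h2 := h.hP _ hne
    have h3 := h2.2 d hd
    have h4 : (xp u Φ - xp u' Φ').IsWeightedHomogeneous (wts r D M₀)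
        (M₀ * ∑ i, u i + M) := by
      refine MvPolynomial.IsWeightedHomogeneous.sub (xp_weighted hΦ M₀ u) ?_
      rw [hw]
      exact xp_weighted hΦ' M₀ u'
    have h5 := h4 (MvPolynomial.mem_support_iff.1 hd)
    rw [weight_wts] at h5
    rw [h5] at h3
    rw [map_sub, aeval_xp, aeval_xp] at h3
    have h6 := h2.1
    rw [map_sub, aeval_xp, aeval_xp] at h6
    exact absurd (hge h6) (not_le.2 (h3.trans_lt hc))
  have h2 := congrArg (MvPolynomial.aeval (Sum.elim (fun _ => (1 : MvPolynomial (Fin D) k))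
      (MvPolynomial.X : Fin D → MvPolynomial (Fin D) k))) h1
  rw [map_sub, xp_one, xp_one, map_zero, sub_eq_zero] at h2
  exact h2

/-- The value and the leading part of a product. -/
theorem val_of_sub {c : 𝕂} {g f : Ω} (hg : g ≠ 0) (hc : ω g < c) (hge : ω.Ge c (f - g)) :
    f ≠ 0 ∧ ω f = ω g := by
  by_cases h0 : f - g = 0
  · rw [sub_eq_zero] at h0
    rw [h0]
    exact ⟨hg, rfl⟩
  have h1 : ω g < ω (f - g) := hc.trans_le (hge h0)
  have hf : f ≠ 0 := by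
    rintro rfl
    rw [zero_sub, ω.map_neg _ hg] at h1
    exact lt_irrefl _ h1
  refine ⟨hf, ?_⟩
  have h2 : f = (f - g) + g := by ring
  have h3 : min (ω (f - g)) (ω g) ≤ ω f := by
    have := ω.map_add (x := f - g) (y := g) h0 hg (by rw [← h2]; exact hf)
    rwa [← h2] at this
  have h4 : g = f + -(f - g) := by ring
  have h0' : -(f - g) ≠ 0 := neg_ne_zero.2 h0
  have h5 : min (ω f) (ω (f - g)) ≤ ω g := by
    have := ω.map_add (x := f) (y := -(f - g)) hf h0' (by rw [← h4]; exact hg)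
    rwa [← h4, ω.map_neg _ h0] at this
  rcases min_le_iff.1 h5 with h5 | h5
  · refine le_antisymm h5 ?_
    rcases min_le_iff.1 h3 with h3 | h3
    · exact h1.le.trans h3
    · exact h3
  · exact absurd h5 (not_le.2 h1)

/-- The core of section 3: if `x^a d h = N`, where `d, h` and `N` have the initial forms `Φ(y)`,
`Ψ(y)` and `G(y)`, then `Φ Ψ = G`. -/
theorem forms_mul (h : WOrd k ω M₀ x y) {G Φ Ψ : MvPolynomial (Fin D) k} {e M M' : ℕ}
    (hG : G.IsHomogeneous e) (hΦ : Φ.IsHomogeneous M) (hΨ : Ψ.IsHomogeneous M')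
    (hG0 : G ≠ 0) (hΦ0 : Φ ≠ 0) (hΨ0 : Ψ ≠ 0) {d₁ h₁ g : Ω}
    (hd : ω.Ge (M + 1) (d₁ - MvPolynomial.aeval y Φ))
    (hh : ω.Ge (M' + 1) (h₁ - MvPolynomial.aeval y Ψ))
    (hg : ω.Ge (e + 1) (g - MvPolynomial.aeval y G))
    (a : Fin r → ℤ) (heq : g = mx x a * d₁ * h₁) : Φ * Ψ = G := by
  classical
  set Φv : Ω := MvPolynomial.aeval y Φ with hΦv
  set Ψv : Ω := MvPolynomial.aeval y Ψ with hΨv
  set Gv : Ω := MvPolynomial.aeval y G with hGv
  have hΦn := h.ne_of_hom hΦ0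
  have hΨn := h.ne_of_hom hΨ0
  have hGn := h.ne_of_hom hG0
  have hΦval := h.val_hom hΦ hΦ0
  have hΨval := h.val_hom hΨ hΨ0
  have hGval := h.val_hom hG hG0
  rw [← hΦv] at hΦn hΦval
  rw [← hΨv] at hΨn hΨval
  rw [← hGv] at hGn hGval
  -- positive and negative parts
  set up : Fin r → ℕ := fun i => (a i).toNat with hup
  set un : Fin r → ℕ := fun i => (-(a i)).toNat with hun
  set xu : Ω := ∏ i, x i ^ up i with hxu
  set xn : Ω := ∏ i, x i ^ un i with hxn
  have hmx : mx x a * xn = xu := by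
    rw [mx, hxn, hxu, ← Finset.prod_mul_distrib]
    refine Finset.prod_congr rfl fun i _ => ?_
    rw [← zpow_natCast (x i) (un i), ← zpow_natCast (x i) (up i), ← zpow_add₀ (h.x_ne i)]
    congr 1
    simp only [hup, hun]
    omega
  have hvx : ∀ u : Fin r → ℕ, (∏ i, x i ^ u i) ≠ 0 ∧
      ω (∏ i, x i ^ u i) = ((M₀ * ∑ i, u i : ℕ) : 𝕂) := by
    intro u
    have h0 : (∏ i, x i ^ u i) ≠ 0 := Finset.prod_ne_zero_iff.2 fun i _ => pow_ne_zero _ (h.x_ne i)
    refine ⟨h0, ?_⟩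
    have h1 := aeval_xp x y u (1 : MvPolynomial (Fin D) k)
    have key : ∀ s : Finset (Fin r), ω (∏ i ∈ s, x i ^ u i) = ∑ i ∈ s, (u i : 𝕂) * M₀ := by
      intro s
      induction s using Finset.induction_on with
      | empty => simp [ω.map_one]
      | insert i s hi ih =>
        rw [Finset.prod_insert hi, Finset.sum_insert hi, ω.map_mul (pow_ne_zero _ (h.x_ne i))
          (Finset.prod_ne_zero_iff.2 fun i _ => pow_ne_zero _ (h.x_ne i)), ih,
          ω.map_pow (h.x_ne i), h.hx i]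
    rw [key]
    push_cast
    rw [Finset.mul_sum]
    exact Finset.sum_congr rfl fun i _ => mul_comm _ _
  obtain ⟨hxu0, hxuv⟩ := hvx up
  obtain ⟨hxn0, hxnv⟩ := hvx un
  rw [← hxu] at hxu0 hxuv
  rw [← hxn] at hxn0 hxnv
  have heq' : xn * g = xu * (d₁ * h₁) := by
    rw [heq, ← hmx]
    ring
  -- `d h`
  have hprod : ω.Ge (M + M' + 1) (d₁ * h₁ - Φv * Ψv) := by
    have h1 : d₁ * h₁ - Φv * Ψv = (d₁ - Φv) * (h₁ - Ψv) + (d₁ - Φv) * Ψv + Φv * (h₁ - Ψv) := by
      ring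
    have hge1 : ω.Ge M' Ψv := fun _ => hΨval.ge
    have hge2 : ω.Ge M Φv := fun _ => hΦval.ge
    rw [h1]
    refine OVal.Ge.add (OVal.Ge.add ((hd.mul hh).mono ?_) ((hd.mul hge1).mono ?_))
      ((hge2.mul hh).mono ?_)
    · linarith
    · linarith
    · linarith
  have hΦΨn : Φv * Ψv ≠ 0 := mul_ne_zero hΦn hΨn
  have hΦΨval : ω (Φv * Ψv) = M + M' := by rw [ω.map_mul hΦn hΨn, hΦval, hΨval]
  have hdh := val_of_sub (ω := ω) hΦΨn (by rw [hΦΨval]; linarith) hprod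
  have hgg := val_of_sub (ω := ω) hGn (by rw [hGval]; linarith) hg
  have hval : (M₀ * ∑ i, up i + (M + M') : ℕ) = M₀ * ∑ i, un i + e := by
    have h1 : ω (xn * g) = ω (xu * (d₁ * h₁)) := by rw [heq']
    rw [ω.map_mul hxn0 hgg.1, ω.map_mul hxu0 hdh.1, hdh.2, hgg.2, hxnv, hxuv, hGval, hΦΨval] at h1
    have h2 : ((M₀ * ∑ i, up i + (M + M') : ℕ) : 𝕂) = ((M₀ * ∑ i, un i + e : ℕ) : 𝕂) := by
      push_cast
      push_cast at h1
      linarith
    exact_mod_cast h2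
  have hfin := xp_eq h (u := up) (u' := un) (hΦ.mul hΨ) hG hval
    (c := ((M₀ * ∑ i, up i + (M + M') : ℕ) : 𝕂) + 1) (by linarith) (by
      rw [map_mul, ← hΦv, ← hΨv, ← hGv, ← hxu, ← hxn]
      have h1 : xu * (Φv * Ψv) - xn * Gv = xn * (g - Gv) - xu * (d₁ * h₁ - Φv * Ψv) := by
        linear_combination (-1 : Ω) * heq'
      rw [h1]
      have hgu : ω.Ge ((M₀ * ∑ i, up i : ℕ) : 𝕂) xu := fun _ => hxuv.ge
      have hgn : ω.Ge ((M₀ * ∑ i, un i : ℕ) : 𝕂) xn := fun _ => hxnv.ge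
      refine OVal.Ge.sub ((hgn.mul hg).mono ?_) ((hgu.mul hprod).mono ?_)
      · rw [hval]
        push_cast
        linarith
      · push_cast
        linarith)
  exact hfin

/-- The product of factors with the same leading part. -/
theorem ge_prod {ι : Type*} (s : Finset ι) (f : ι → Ω) (g : Ω) (e : 𝕂) (hg : ω.Ge e g)
    (hf : ∀ i ∈ s, ω.Ge (e + 1) (f i - g)) :
    ω.Ge (s.card * e + 1) (∏ i ∈ s, f i - g ^ s.card) := by
  classical
  induction s using Finset.induction_on with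
  | empty => simpa using OVal.Ge.zero
  | insert i s hi ih =>
    rw [Finset.prod_insert hi, Finset.card_insert_of_notMem hi, pow_succ]
    have h1 := ih fun j hj => hf j (Finset.mem_insert_of_mem hj)
    have h2 := hf i (Finset.mem_insert_self i s)
    have hpow : ∀ n : ℕ, ω.Ge (n * e) (g ^ n) := by
      intro n hn
      have hg0 : g ^ n ≠ 0 := hn
      rcases Nat.eq_zero_or_pos n with h0 | h0
      · subst h0
        rw [pow_zero, ω.map_one]
        simp
      have hg1 : g ≠ 0 := by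
        rintro rfl
        exact hg0 (zero_pow h0.ne')
      rw [ω.map_pow hg1]
      exact mul_le_mul_of_nonneg_left (hg hg1) (Nat.cast_nonneg n)
    have h3 : f i * ∏ j ∈ s, f j - g ^ s.card * g = (f i - g) * (∏ j ∈ s, f j - g ^ s.card) +
        (f i - g) * g ^ s.card + g * (∏ j ∈ s, f j - g ^ s.card) := by ring
    rw [h3]
    push_cast
    refine OVal.Ge.add (OVal.Ge.add ((h2.mul h1).mono ?_) ((h2.mul (hpow _)).mono ?_))
      ((hg.mul h1).mono ?_)
    · linarith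
    · linarith
    · linarith

end

end Pool.Agent.ALLO5
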