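import Pool.Agent.Lib.TAO.Cramer
import Pool.Agent.Lib.TAO.CentreA
import Pool.Agent.Lib.TAO.ExtVal
import Pool.Agent.Lib.ALLO.Defs

/-!
# Valuations with values in an ordered field: localisation at the centre, valuations of a field of
fractions, prescribed centres, the spaces `Vg`
-/

set_option autoImplicit false

namespace Pool.Agent.ALLO5

open Pool.Agent.TAO (OVal VPos Ctx0 rcomap cen cen_isPrime ge_of_isIntegral)
open Pool.Agent.ALLO (locv)

universe u w w'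

section

variable {k Ω : Type u} [Field k] [Field Ω] [Algebra k Ω]
  {𝕂 : Type w} [Field 𝕂] [LinearOrder 𝕂] [IsStrictOrderedRing 𝕂] {v : OVal 𝕂 Ω} {n : ℕ}

theorem mem_locv {S : Subalgebra k Ω} {f : Ω} :
    f ∈ locv v S ↔ ∃ a ∈ S, ∃ b ∈ S, b ≠ 0 ∧ v b = 0 ∧ f = a / b := Iff.rfl

theorem le_locv (S : Subalgebra k Ω) : S ≤ locv v S := by
  intro f hf
  exact ⟨f, hf, 1, S.one_mem, one_ne_zero, v.map_one, by rw [div_one]⟩

theorem locv_mono {S T : Subalgebra k Ω} (h : S ≤ T) : locv v S ≤ locv v T := by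
  rintro f ⟨a, ha, b, hb, h1, h2, rfl⟩
  exact ⟨a, h ha, b, h hb, h1, h2, rfl⟩

theorem locv_le {S R : Subalgebra k Ω} (h : S ≤ R) (hR : ∀ f ∈ R, f ≠ 0 → v f = 0 → f⁻¹ ∈ R) :
    locv v S ≤ R := by
  rintro f ⟨a, ha, b, hb, h1, h2, rfl⟩
  rw [div_eq_mul_inv]
  exact R.mul_mem (h ha) (hR b (h hb) h1 h2)

theorem locv_inv {S : Subalgebra k Ω} {f : Ω} (hf : f ∈ locv v S) (h0 : f ≠ 0) (h1 : v f = 0) :
    f⁻¹ ∈ locv v S := by
  obtain ⟨a, ha, b, hb, hb0, hvb, rfl⟩ := hf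
  have ha0 : a ≠ 0 := by rintro rfl; simp at h0
  refine ⟨b, hb, a, ha, ha0, ?_, by rw [inv_div]⟩
  rw [v.map_div ha0 hb0, hvb, sub_zero] at h1
  exact h1

theorem locv_nonneg {S : Subalgebra k Ω} (hS : ∀ f ∈ S, v.Ge 0 f) :
    ∀ f ∈ locv v S, v.Ge 0 f := by
  rintro f ⟨a, ha, b, hb, h1, h2, rfl⟩ h0
  have ha0 : a ≠ 0 := by rintro rfl; simp at h0
  rw [v.map_div ha0 h1, h2, sub_zero]
  exact hS a ha ha0

end

section

variable {𝕃 : Type w'} [Field 𝕃] [LinearOrder 𝕃] [IsStrictOrderedRing 𝕃]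

/-- A multiplicative order function on a domain extends to its field of fractions. -/
theorem exists_oval_fraction {R K : Type*} [CommRing R] [Field K] (ι : R →+* K)
    (hι : Function.Injective ι) (hfrac : ∀ z : K, ∃ a b : R, b ≠ 0 ∧ z = ι a / ι b) (f : R → 𝕃)
    (hmul : ∀ a b, a ≠ 0 → b ≠ 0 → f (a * b) = f a + f b)
    (hadd : ∀ a b, a ≠ 0 → b ≠ 0 → a + b ≠ 0 → min (f a) (f b) ≤ f (a + b)) :
    ∃ o : OVal 𝕃 K, ∀ a, a ≠ 0 → o (ι a) = f a := by
  classical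
  have hne : ∀ {a : R}, a ≠ 0 → ι a ≠ 0 := fun {a} ha h => ha (hι (by rw [h, map_zero]))
  have hdom : ∀ {a b : R}, a ≠ 0 → b ≠ 0 → a * b ≠ 0 := by
    intro a b ha hb h
    have := mul_ne_zero (hne ha) (hne hb)
    rw [← map_mul, h, map_zero] at this
    exact this rfl
  choose p q hq hpq using hfrac
  have hp : ∀ z, z ≠ 0 → p z ≠ 0 := by
    intro z hz h
    apply hz
    rw [hpq z, h, map_zero, zero_div]
  -- the key: independence of the fraction
  have key : ∀ z : K, z ≠ 0 → ∀ a b : R, a ≠ 0 → b ≠ 0 → z = ι a / ι b →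
      f (p z) - f (q z) = f a - f b := by
    intro z hz a b ha hb h
    have h1 : ι (p z * b) = ι (a * q z) := by
      rw [map_mul, map_mul]
      have h2 : ι a / ι b = ι (p z) / ι (q z) := h.symm.trans (hpq z)
      rw [div_eq_div_iff (hne hb) (hne (hq z))] at h2
      exact h2.symm
    have h2 := hι h1
    have h3 := hmul (p z) b (hp z hz) hb
    have h4 := hmul a (q z) ha (hq z)
    rw [h2] at h3
    linarith
  refine ⟨⟨fun z => f (p z) - f (q z), ?_, ?_⟩, ?_⟩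
  · intro x y hx hy
    have h1 : x * y = ι (p x * p y) / ι (q x * q y) := by
      conv_lhs => rw [hpq x, hpq y]
      rw [map_mul, map_mul, div_mul_div_comm]
    rw [key (x * y) (mul_ne_zero hx hy) _ _ (hdom (hp x hx) (hp y hy)) (hdom (hq x) (hq y)) h1,
      hmul _ _ (hp x hx) (hp y hy), hmul _ _ (hq x) (hq y)]
    ring
  · intro x y hx hy hxy
    have h1 : x + y = ι (p x * q y + p y * q x) / ι (q x * q y) := by
      conv_lhs => rw [hpq x, hpq y]
      rw [div_add_div _ _ (hne (hq x)) (hne (hq y)), map_add, map_mul, map_mul, map_mul]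
      ring
    have h2 : p x * q y + p y * q x ≠ 0 := by
      intro h
      apply hxy
      rw [h1, h, map_zero, zero_div]
    rw [key (x + y) hxy _ _ h2 (hdom (hq x) (hq y)) h1]
    have h3 := hadd (p x * q y) (p y * q x) (hdom (hp x hx) (hq y)) (hdom (hp y hy) (hq x)) h2
    rw [hmul _ _ (hp x hx) (hq y), hmul _ _ (hp y hy) (hq x)] at h3
    rw [hmul _ _ (hq x) (hq y)]
    have h4 : min (f (p x) - f (q x)) (f (p y) - f (q y)) =
        min (f (p x) + f (q y)) (f (p y) + f (q x)) - (f (q x) + f (q y)) := by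
      rw [← min_sub_sub_right]
      congr 1 <;> ring
    rw [h4]
    linarith
  · intro a ha
    change f (p (ι a)) - f (q (ι a)) = f a
    by_cases h1 : (1 : R) = 0
    · exact absurd (by rw [← mul_one a, h1, mul_zero]) ha
    have h2 := key (ι a) (hne ha) a 1 ha h1 (by rw [map_one, div_one])
    have h3 := hmul a 1 ha h1
    rw [mul_one] at h3
    linarith

end

section

variable {k Ω : Type u} [Field k] [Field Ω] [Algebra k Ω]
  {𝕂 : Type w} [Field 𝕂] [LinearOrder 𝕂] [IsStrictOrderedRing 𝕂]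
  {𝕃 : Type w'} [Field 𝕃] [LinearOrder 𝕃] [IsStrictOrderedRing 𝕃]

open scoped Pointwise in
theorem exists_centreO (F : IntermediateField k Ω) (N : IntermediateField F Ω)
    [FiniteDimensional F N] [IsGalois F N] (halg : ∀ g : Ω, IsAlgebraic N g)
    (O : Type u) [CommRing O] [IsDomain O] [IsIntegrallyClosed O] [Algebra O F] [IsFractionRing O F]
    [Algebra O N] [IsScalarTower O F N] (v : OVal 𝕂 Ω) (ω₀ : OVal 𝕃 F)
    (hv : ∀ a : O, a ≠ 0 → 0 ≤ v ((algebraMap O F a : F) : Ω))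
    (h0 : ∀ a : O, a ≠ 0 → 0 ≤ ω₀ (algebraMap O F a))
    (hvω : ∀ a : O, a ≠ 0 → (0 < v ((algebraMap O F a : F) : Ω) ↔ 0 < ω₀ (algebraMap O F a))) :
    ∃ ω : OVal 𝕃 Ω, (∀ g : F, g ≠ 0 → ω (g : Ω) = ω₀ g) ∧
      ∀ c : N, IsIntegral O c → c ≠ 0 → 0 ≤ ω (c : Ω) ∧ (0 < v (c : Ω) ↔ 0 < ω (c : Ω)) := by
  classical
  obtain ⟨w1, hw1⟩ := Pool.Agent.TAO.exists_extValO F N ω₀
  let vN : OVal 𝕂 N := rcomap (algebraMap N Ω) v
  have hinj : ∀ a : O, a ≠ 0 → algebraMap O F a ≠ 0 := fun a ha h =>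
    ha ((IsFractionRing.injective O F) (by rw [h, map_zero]))
  have hON : ∀ a : O, algebraMap O N a = algebraMap F N (algebraMap O F a) := fun a =>
    IsScalarTower.algebraMap_apply O F N a
  have hvN : ∀ a : O, vN.Ge 0 (algebraMap O N a) := by
    intro a ha
    have h1 : a ≠ 0 := by rintro rfl; simp at ha
    have := hv a h1
    rw [hON]
    exact this
  have hwN : ∀ a : O, w1.Ge 0 (algebraMap O N a) := by
    intro a ha
    have h1 : a ≠ 0 := by rintro rfl; simp at ha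
    rw [hON, hw1 _ (hinj a h1)]
    exact h0 a h1
  let C := integralClosure O N
  have hP1 := cen_isPrime vN hvN
  have hP2 := cen_isPrime w1 hwN
  have hfr : IsFractionRing C N := integralClosure.isFractionRing_of_finite_extension F N
  let _ : MulSemiringAction (N ≃ₐ[F] N) C := IsIntegralClosure.MulSemiringAction O F N C
  have hinv : Algebra.IsInvariant O C (N ≃ₐ[F] N) := Algebra.isInvariant_of_isGalois O F N C
  have hsmul : ∀ (σ : N ≃ₐ[F] N) (c : C), ((σ • c : C) : N) = σ (c : N) := by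
    intro σ c
    exact algebraMap_galRestrict_apply O σ c
  have hcomm : SMulCommClass (N ≃ₐ[F] N) O C := by
    refine ⟨fun σ a c => ?_⟩
    apply Subtype.ext
    rw [hsmul]
    change σ (a • (c : N)) = a • ((σ • c : C) : N)
    rw [hsmul, Algebra.smul_def, map_mul, Algebra.smul_def, hON, AlgEquiv.commutes]
  have hunder : (cen w1 hwN).under O = (cen vN hvN).under O := by
    ext a
    rw [Ideal.under_def, Ideal.under_def, Ideal.mem_comap, Ideal.mem_comap]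
    change VPos w1 (algebraMap O N a) ↔ VPos vN (algebraMap O N a)
    by_cases ha : a = 0
    · subst ha
      rw [map_zero]
      exact ⟨fun _ => VPos.zero, fun _ => VPos.zero⟩
    · have h1 : algebraMap O N a ≠ 0 := by
        rw [hON]
        simpa using hinj a ha
      have h2 := hvω a ha
      unfold VPos
      rw [hON, hw1 _ (hinj a ha)]
      constructor
      · intro h3 _
        exact h2.2 (h3 (by rw [← hON]; exact h1))
      · intro h3 _
        exact h2.1 (h3 (by rw [← hON]; exact h1))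
  obtain ⟨τ, hτ⟩ := Algebra.IsInvariant.exists_smul_of_under_eq O C (N ≃ₐ[F] N)
    (cen w1 hwN) (cen vN hvN) hunder
  -- `ω` on `N`
  let w2 : OVal 𝕃 N := rcomap (τ⁻¹ : N ≃ₐ[F] N).toAlgHom.toRingHom w1
  have hw2 : ∀ c : N, w2 c = w1 ((τ⁻¹ : N ≃ₐ[F] N) c) := fun c => rfl
  have : Algebra.IsAlgebraic N Ω := ⟨halg⟩
  obtain ⟨ω, hω⟩ := Pool.Agent.TAO.exists_extValO N Ω w2
  refine ⟨ω, ?_, ?_⟩
  · intro g hg
    have h1 : (algebraMap F N g) ≠ 0 := by simpa using hg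
    have h2 := hω (algebraMap F N g) h1
    rw [hw2, AlgEquiv.commutes, hw1 g hg] at h2
    exact h2
  · intro c hc hc0
    have h1 := hω c hc0
    have h2 : ω (c : Ω) = w1 ((τ⁻¹ : N ≃ₐ[F] N) c) := by rw [← hw2]; exact h1
    have h3 : IsIntegral O ((τ⁻¹ : N ≃ₐ[F] N) c) :=
      hc.map ((τ⁻¹ : N ≃ₐ[F] N).toAlgHom.restrictScalars O)
    have h4 : (τ⁻¹ : N ≃ₐ[F] N) c ≠ 0 := by simpa using hc0
    refine ⟨?_, ?_⟩
    · rw [h2]
      exact ge_of_isIntegral hwN h3 h4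
    · rw [h2]
      let c' : C := ⟨c, hc⟩
      have h5 : c' ∈ cen vN hvN ↔ τ⁻¹ • c' ∈ cen w1 hwN := by
        rw [hτ, Ideal.mem_pointwise_smul_iff_inv_smul_mem]
      have h6 : c' ∈ cen vN hvN ↔ VPos vN c := Iff.rfl
      have h7 : τ⁻¹ • c' ∈ cen w1 hwN ↔ VPos w1 ((τ⁻¹ : N ≃ₐ[F] N) c) := by
        change VPos w1 ((τ⁻¹ • c' : C) : N) ↔ _
        rw [hsmul]
      rw [h6, h7] at h5
      constructor
      · intro h8
        exact h5.1 (fun _ => h8) h4
      · intro h8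
        exact h5.2 (fun _ => h8) hc0

section Vg

variable {ω : OVal 𝕃 Ω}
  {F : IntermediateField k Ω} {N : IntermediateField F Ω}

/-- The elements `g` of `N` with `ω (σ g) ≥ c`, as a subspace of `Ω`. -/
def Vg (hωk : ∀ c : k, c ≠ 0 → ω (algebraMap k Ω c) = 0) (σ : N ≃ₐ[F] N) (c : 𝕃) :
    Submodule k Ω where
  carrier := {g | ∃ m : N, (m : Ω) = g ∧ ω.Ge c (σ m : Ω)}
  add_mem' := by
    rintro g g' ⟨m, rfl, h⟩ ⟨m', rfl, h'⟩
    refine ⟨m + m', rfl, ?_⟩
    rw [_root_.map_add]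
    exact h.add h'
  zero_mem' := ⟨0, rfl, by rw [_root_.map_zero]; exact OVal.Ge.zero⟩
  smul_mem' := by
    rintro a g ⟨m, rfl, h⟩
    refine ⟨algebraMap F N (algebraMap k F a) * m, ?_, ?_⟩
    · rw [Algebra.smul_def]
      rfl
    · rw [_root_.map_mul, AlgEquiv.commutes]
      have h1 : ω.Ge 0 (algebraMap k Ω a) := by
        intro ha
        have ha' : a ≠ 0 := by
          rintro rfl
          exact ha (_root_.map_zero _)
        rw [hωk a ha']
      have h2 := h1.mul h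
      rw [zero_add] at h2
      exact h2

variable {hωk : ∀ c : k, c ≠ 0 → ω (algebraMap k Ω c) = 0} {σ : N ≃ₐ[F] N}

theorem mem_Vg {c : 𝕃} {g : Ω} : g ∈ Vg hωk σ c ↔ ∃ m : N, (m : Ω) = g ∧ ω.Ge c (σ m : Ω) :=
  Iff.rfl

theorem Vg_mono {c d : 𝕃} (h : c ≤ d) : Vg hωk σ d ≤ Vg hωk σ c := by
  rintro g ⟨m, hm, h'⟩
  exact ⟨m, hm, h'.mono h⟩

theorem Vg_mul (c d : 𝕃) : Vg hωk σ c * Vg hωk σ d ≤ Vg hωk σ (c + d) := by
  rw [Submodule.mul_le]
  rintro g ⟨m, rfl, h⟩ g' ⟨m', rfl, h'⟩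
  refine ⟨m * m', rfl, ?_⟩
  rw [_root_.map_mul]
  exact h.mul h'

theorem mul_le_Vg {P Q : Submodule k Ω} {c d : 𝕃} (hP : P ≤ Vg hωk σ c) (hQ : Q ≤ Vg hωk σ d) :
    P * Q ≤ Vg hωk σ (c + d) := (mul_le_mul' hP hQ).trans (Vg_mul c d)

theorem pow_le_Vg {P : Submodule k Ω} {c : 𝕃} (hP : P ≤ Vg hωk σ c) (m : ℕ) :
    P ^ m ≤ Vg hωk σ (m * c) := by
  induction m with
  | zero =>
    rw [pow_zero, Nat.cast_zero, zero_mul, Submodule.one_le]
    exact ⟨1, rfl, by rw [_root_.map_one]; exact fun _ => le_of_eq ω.map_one.symm⟩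
  | succ m ih =>
    rw [pow_succ, Nat.cast_succ, add_mul, one_mul]
    exact mul_le_Vg ih hP

theorem mem_Vg_of_F {g : Ω} (hg : g ∈ F) {c : 𝕃} (h : ω.Ge c g) : g ∈ Vg hωk σ c := by
  refine ⟨algebraMap F N ⟨g, hg⟩, rfl, ?_⟩
  rw [AlgEquiv.commutes]
  exact h

end Vg

end

end Pool.Agent.ALLO5
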