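import Pool.Agent.Lib.ALLO_h5.MuL
import Pool.Agent.Lib.ALLO_h5.Frame1
import Pool.Agent.Lib.TAO.Cramer
import Pool.Agent.Lib.TAO.Main
import Pool.Agent.Lib.ALLO.XDefs

/-!
# Monomial valuations on the limit ring, and their extensions with the right centre

Row R8 of `allx_XStmt.lean`.
-/

set_option autoImplicit false

open Polynomial

namespace Pool.Agent.ALLO5

open Pool.Agent.TAO (OVal)
open Pool.Agent.TAO (VPos)
open Pool.Agent.ALLO (locv)
open Pool.Agent.LU1 (FracIs)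
open Pool.Agent.TAO (Ctx0)
open Pool.Agent.TAO (mx toAdj coe_toAdj toAdj_injective exists_frac Ab Wb Is)
open Pool.Agent.ALLO (Oinf FROf FR ICl icl)

universe u w

variable {k Ω : Type u} [Field k] [Field Ω] [Algebra k Ω]
  {𝕂 : Type w} [Field 𝕂] [LinearOrder 𝕂] [IsStrictOrderedRing 𝕂] {v : OVal 𝕂 Ω} {n r D : ℕ}

section Limit

variable {K : IntermediateField k Ω} {μ : OVal 𝕂 K}

/-- `f` has a residue in `k` for `v` and for `μ`. -/
def Res (v : OVal 𝕂 Ω) (μ : OVal 𝕂 K) (f : Ω) : Prop :=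
  ∃ (hf : f ∈ K) (c : k), VPos v (f - algebraMap k Ω c) ∧ VPos μ (⟨f, hf⟩ - algebraMap k K c)

theorem ge_const (hk : ∀ c : k, c ≠ 0 → v (algebraMap k Ω c) = 0) (c : k) :
    v.Ge 0 (algebraMap k Ω c) := by
  intro hc
  rw [hk c (by rintro rfl; exact hc (map_zero _))]

theorem ge_constK (hμ : ∀ c : k, c ≠ 0 → μ (algebraMap k K c) = 0) (c : k) :
    μ.Ge 0 (algebraMap k K c) := by
  intro hc
  rw [hμ c (by rintro rfl; exact hc (map_zero _))]

theorem Res.const (hk : ∀ c : k, c ≠ 0 → v (algebraMap k Ω c) = 0) (c : k) :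
    Res v μ (algebraMap k Ω c) := by
  have _ := hk
  refine ⟨K.algebraMap_mem c, c, ?_, ?_⟩
  · rw [sub_self]
    exact Pool.Agent.TAO.VPos.zero
  · have h1 : (⟨algebraMap k Ω c, K.algebraMap_mem c⟩ : K) - algebraMap k K c = 0 := by
      rw [sub_eq_zero]
      rfl
    rw [h1]
    exact Pool.Agent.TAO.VPos.zero

theorem Res.add {f g : Ω} (hf : Res v μ f) (hg : Res v μ g) : Res v μ (f + g) := by
  obtain ⟨hfK, c, h1, h2⟩ := hf
  obtain ⟨hgK, d, h3, h4⟩ := hg
  refine ⟨add_mem hfK hgK, c + d, ?_, ?_⟩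
  · have h5 : f + g - algebraMap k Ω (c + d) = (f - algebraMap k Ω c) +
        (g - algebraMap k Ω d) := by
      rw [map_add]
      ring
    rw [h5]
    exact h1.add h3
  · have h5 : (⟨f + g, add_mem hfK hgK⟩ : K) - algebraMap k K (c + d) =
        ((⟨f, hfK⟩ : K) - algebraMap k K c) + ((⟨g, hgK⟩ : K) - algebraMap k K d) := by
      rw [map_add]
      have h6 : (⟨f + g, add_mem hfK hgK⟩ : K) = ⟨f, hfK⟩ + ⟨g, hgK⟩ := rfl
      rw [h6]
      ring
    rw [h5]
    exact h2.add h4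

theorem Res.ge (hk : ∀ c : k, c ≠ 0 → v (algebraMap k Ω c) = 0)
    (hμ : ∀ c : k, c ≠ 0 → μ (algebraMap k K c) = 0) {f : Ω} (hf : Res v μ f) :
    v.Ge 0 f ∧ μ.Ge 0 (⟨f, hf.1⟩ : K) := by
  obtain ⟨hfK, c, h1, h2⟩ := hf
  constructor
  · have h3 : f = (f - algebraMap k Ω c) + algebraMap k Ω c := by ring
    rw [h3]
    exact h1.ge.add (ge_const hk c)
  · have h3 : (⟨f, hfK⟩ : K) = ((⟨f, hfK⟩ : K) - algebraMap k K c) + algebraMap k K c := by ring
    rw [h3]
    exact h2.ge.add (ge_constK hμ c)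

theorem Res.mul (hk : ∀ c : k, c ≠ 0 → v (algebraMap k Ω c) = 0)
    (hμ : ∀ c : k, c ≠ 0 → μ (algebraMap k K c) = 0) {f g : Ω} (hf : Res v μ f)
    (hg : Res v μ g) : Res v μ (f * g) := by
  have hgge := hg.ge hk hμ
  obtain ⟨hfK, c, h1, h2⟩ := hf
  obtain ⟨hgK, d, h3, h4⟩ := hg
  refine ⟨mul_mem hfK hgK, c * d, ?_, ?_⟩
  · have h5 : f * g - algebraMap k Ω (c * d) = (f - algebraMap k Ω c) * g +
        algebraMap k Ω c * (g - algebraMap k Ω d) := by
      rw [map_mul]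
      ring
    rw [h5]
    exact (h1.mul hgge.1).add (Pool.Agent.TAO.VPos.mul' (ge_const hk c) h3)
  · have h5 : (⟨f * g, mul_mem hfK hgK⟩ : K) - algebraMap k K (c * d) =
        ((⟨f, hfK⟩ : K) - algebraMap k K c) * ⟨g, hgK⟩ +
        algebraMap k K c * ((⟨g, hgK⟩ : K) - algebraMap k K d) := by
      rw [map_mul]
      have h6 : (⟨f * g, mul_mem hfK hgK⟩ : K) = ⟨f, hfK⟩ * ⟨g, hgK⟩ := rfl
      rw [h6]
      ring
    rw [h5]
    exact (h2.mul hgge.2).add (Pool.Agent.TAO.VPos.mul' (ge_constK hμ c) h4)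

theorem Res.vpos_iff (hk : ∀ c : k, c ≠ 0 → v (algebraMap k Ω c) = 0)
    (hμ : ∀ c : k, c ≠ 0 → μ (algebraMap k K c) = 0) {f : Ω} (hf : Res v μ f) :
    VPos v f ↔ VPos μ (⟨f, hf.1⟩ : K) := by
  obtain ⟨hfK, c, h1, h2⟩ := hf
  by_cases hc : c = 0
  · subst hc
    rw [map_zero, sub_zero] at h1 h2
    exact ⟨fun _ => h2, fun _ => h1⟩
  · have hcΩ : algebraMap k Ω c ≠ 0 := by simpa using hc
    have hcK : algebraMap k K c ≠ 0 := by simpa using hc
    constructor
    · intro h3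
      exfalso
      have h4 : algebraMap k Ω c = f - (f - algebraMap k Ω c) := by ring
      have h5 : VPos v (algebraMap k Ω c) := by
        rw [h4]
        exact h3.sub h1
      exact not_vpos hcΩ (hk c hc) h5
    · intro h3
      exfalso
      have h4 : algebraMap k K c = (⟨f, hfK⟩ : K) - ((⟨f, hfK⟩ : K) - algebraMap k K c) := by ring
      have h5 : VPos μ (algebraMap k K c) := by
        rw [h4]
        exact h3.sub h2
      exact not_vpos hcK (hμ c hc) h5

/-- The quotient by an element of value `0`. -/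
theorem Res.div (hk : ∀ c : k, c ≠ 0 → v (algebraMap k Ω c) = 0)
    (hμ : ∀ c : k, c ≠ 0 → μ (algebraMap k K c) = 0) {f g : Ω} (hf : Res v μ f)
    (hg : Res v μ g) (hg0 : g ≠ 0) (hv : v g = 0) : Res v μ (f / g) := by
  have hgge := hg.ge hk hμ
  have hgμ := (hg.vpos_iff hk hμ).not.1 (not_vpos hg0 hv)
  obtain ⟨hg0', hvμ⟩ := (vpos_or hgge.2).resolve_left hgμ
  have hinv : Res v μ g⁻¹ := by
    obtain ⟨hgK, d, h3, h4⟩ := hg
    have hd : d ≠ 0 := by
      rintro rfl
      rw [map_zero, sub_zero] at h3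
      exact not_vpos hg0 hv h3
    have hdΩ : algebraMap k Ω d ≠ 0 := by simpa using hd
    have hdK : algebraMap k K d ≠ 0 := by simpa using hd
    refine ⟨inv_mem hgK, d⁻¹, ?_, ?_⟩
    · have h5 : g⁻¹ - algebraMap k Ω d⁻¹ = -(g - algebraMap k Ω d) *
          (g⁻¹ * algebraMap k Ω d⁻¹) := by
        rw [map_inv₀]
        field_simp
        ring
      rw [h5]
      refine h3.neg.mul ?_
      have h6 : v.Ge 0 g⁻¹ := fun _ => by rw [v.map_inv hg0, hv, neg_zero]
      have h7 := h6.mul (ge_const hk d⁻¹)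
      rwa [add_zero] at h7
    · have h5 : (⟨g⁻¹, inv_mem hgK⟩ : K) - algebraMap k K d⁻¹ =
          -((⟨g, hgK⟩ : K) - algebraMap k K d) * ((⟨g, hgK⟩ : K)⁻¹ * algebraMap k K d⁻¹) := by
        have h6 : (⟨g⁻¹, inv_mem hgK⟩ : K) = (⟨g, hgK⟩ : K)⁻¹ := rfl
        rw [h6, map_inv₀]
        field_simp
        ring
      rw [h5]
      refine h4.neg.mul ?_
      have h6 : μ.Ge 0 (⟨g, hgK⟩ : K)⁻¹ := fun _ => by rw [μ.map_inv hg0', hvμ, neg_zero]
      have h7 := h6.mul (ge_constK hμ d⁻¹)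
      rwa [add_zero] at h7
  rw [div_eq_mul_inv]
  exact hf.mul hk hμ hinv

end Limit

section MuL

theorem coe_mxK {K : IntermediateField k Ω} {x : Fin r → Ω} (hx : ∀ i, x i ∈ K)
    (l : Fin r → ℤ) : ((mx (fun i => (⟨x i, hx i⟩ : K)) l : K) : Ω) = mx x l := by
  rw [mx, mx]
  push_cast
  rfl

/-- The monomial valuation `μ_L` on `K = k(x, y)`. -/
theorem exists_muL {x : Fin r → Ω} {y : Fin D → Ω}
    (hk : ∀ c : k, c ≠ 0 → v (algebraMap k Ω c) = 0) (hx : ∀ i, x i ≠ 0)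
    (hxi : LinearIndependent ℚ fun i => v (x i)) (hy : ∀ j, VPos v (y j))
    (hind : AlgebraicIndependent k (Sum.elim x y)) {K : IntermediateField k Ω}
    (hu : ∀ i, Sum.elim x y i ∈ K)
    (hK : K = IntermediateField.adjoin k (Set.range (Sum.elim x y))) {L : 𝕂} (hL : 0 < L) :
    ∃ μ : OVal 𝕂 K, (∀ c : k, c ≠ 0 → μ (algebraMap k K c) = 0) ∧
      (∀ f ∈ locv v (Oinf k v x y), Res v μ f) ∧
      (∀ P : MvPolynomial (Fin r ⊕ Fin D) k, P ≠ 0 → μ (toAdj (Sum.elim x y) K hu P) =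
        mw (Sum.elim (fun i => L * v (x i)) fun _ => 1) P) := by
  classical
  set w : Fin r ⊕ Fin D → 𝕂 := Sum.elim (fun i => L * v (x i)) fun _ => 1 with hw
  obtain ⟨μ, hμ⟩ := exists_mon hind hu hK w
  have hmon : ∀ (d : (Fin r ⊕ Fin D) →₀ ℕ) (c : k), c ≠ 0 →
      μ (toAdj (Sum.elim x y) K hu (MvPolynomial.monomial d c)) = Finsupp.weight w d := by
    intro d c hc
    have h1 : MvPolynomial.monomial d c ≠ 0 := by
      rw [Ne, MvPolynomial.monomial_eq_zero]
      exact hc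
    rw [hμ _ h1]
    obtain ⟨d', hd', hd''⟩ := exists_mw w h1
    rw [MvPolynomial.support_monomial, if_neg hc, Finset.mem_singleton] at hd'
    rw [hd'', hd']
  have hμk : ∀ c : k, c ≠ 0 → μ (algebraMap k K c) = 0 := by
    intro c hc
    have h1 := hmon 0 c hc
    rw [map_zero] at h1
    rw [← h1]
    congr 1
    rw [← MvPolynomial.C_apply]
    exact ((toAdj (Sum.elim x y) K hu).commutes c).symm
  have hμu : ∀ i, μ ⟨Sum.elim x y i, hu i⟩ = w i := by
    intro i
    have h1 := hmon (Finsupp.single i 1) 1 one_ne_zero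
    rw [Finsupp.weight_single, one_smul] at h1
    rw [← h1]
    congr 1
    change _ = toAdj (Sum.elim x y) K hu (MvPolynomial.X i)
    rw [toAdj, MvPolynomial.aeval_X]
  have hxK : ∀ i, x i ∈ K := fun i => hu (Sum.inl i)
  have hyK : ∀ j, y j ∈ K := fun j => hu (Sum.inr j)
  have hμmx : ∀ l : Fin r → ℤ, μ (mx (fun i => (⟨x i, hxK i⟩ : K)) l) = L * v (mx x l) := by
    intro l
    rw [Pool.Agent.TAO.v_mx (fun i h => hx i (congrArg Subtype.val h)),
      Pool.Agent.TAO.v_mx hx, Finset.mul_sum]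
    refine Finset.sum_congr rfl fun i _ => ?_
    have h1 := hμu (Sum.inl i)
    change μ ⟨x i, hxK i⟩ = L * v (x i) at h1
    rw [h1]
    ring
  have hO : ∀ f ∈ Oinf k v x y, Res v μ f := by
    intro f hf
    unfold Oinf at hf
    induction hf using Algebra.adjoin_induction with
    | mem f hf =>
      rcases hf with ⟨l, hl, rfl⟩ | ⟨j, rfl⟩
      · rcases hl.lt_or_eq with h1 | h1
        · have hmem : mx x l ∈ K := by
            rw [← coe_mxK hxK l]
            exact (mx (fun i => (⟨x i, hxK i⟩ : K)) l).2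
          refine ⟨hmem, 0, ?_, ?_⟩
          · rw [map_zero, sub_zero]
            exact fun _ => h1
          · rw [map_zero, sub_zero]
            intro _
            have h2 : (⟨mx x l, hmem⟩ : K) = mx (fun i => (⟨x i, hxK i⟩ : K)) l := by
              apply Subtype.ext
              exact (coe_mxK hxK l).symm
            rw [h2, hμmx]
            exact mul_pos hL h1
        · have h2 : l = 0 := by
            rw [Pool.Agent.TAO.v_mx hx] at h1
            have h3 : (fun i => ((l i : ℤ) : ℚ)) = 0 := by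
              have h4 := (Fintype.linearIndependent_iff.1 hxi) (fun i => ((l i : ℤ) : ℚ)) (by
                rw [h1]
                refine Finset.sum_congr rfl fun i _ => ?_
                rw [Rat.smul_def]
                push_cast
                rfl)
              funext i
              exact h4 i
            funext i
            have h4 := congrFun h3 i
            simpa using h4
          rw [h2, Pool.Agent.TAO.mx_zero]
          have h3 := Res.const (μ := μ) hk 1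
          rwa [map_one] at h3
      · refine ⟨hyK j, 0, ?_, ?_⟩
        · rw [map_zero, sub_zero]
          exact hy j
        · rw [map_zero, sub_zero]
          intro _
          have h1 := hμu (Sum.inr j)
          change μ ⟨y j, hyK j⟩ = 1 at h1
          rw [h1]
          exact one_pos
    | algebraMap c => exact Res.const hk c
    | add f g _ _ hf hg => exact hf.add hg
    | mul f g _ _ hf hg => exact hf.mul hk hμk hg
  refine ⟨μ, hμk, ?_, hμ⟩
  rintro _ ⟨a, ha, b, hb, hb0, hvb, rfl⟩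
  exact (hO a ha).div hk hμk (hO b hb) hb0 hvb

end MuL

section Ext

variable {R : Subalgebra k Ω} {K : IntermediateField k Ω} {N : IntermediateField K Ω}

/-- The extension of `μ` to `N` whose centre is the centre of `v`. -/
theorem exists_ext (hB : Base v R K) (hfr : FracIs R K) [FiniteDimensional K N] [IsGalois K N]
    (halg : ∀ g : Ω, IsAlgebraic N g) (hk : ∀ c : k, c ≠ 0 → v (algebraMap k Ω c) = 0)
    {μ : OVal 𝕂 K} (hμk : ∀ c : k, c ≠ 0 → μ (algebraMap k K c) = 0)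
    (hres : ∀ f ∈ R, Res v μ f) :
    ∃ ω : OVal 𝕂 Ω, (∀ g : K, g ≠ 0 → ω (g : Ω) = μ g) ∧
      ∀ c : N, (c : Ω) ∈ ON R N → ω.Ge 0 (c : Ω) ∧ (VPos v (c : Ω) ↔ VPos ω (c : Ω)) := by
  classical
  let φ : R →+* K := ((algebraMap R Ω).codRestrict K.toSubring fun f => hB.le _ f.2)
  let _ : Algebra R K := φ.toAlgebra
  let _ : Algebra R N := ((algebraMap K N).comp φ).toAlgebra
  have hφ : ∀ f : R, ((algebraMap R K f : K) : Ω) = (f : Ω) := fun _ => rfl
  have : IsScalarTower R K N := IsScalarTower.of_algebraMap_eq fun _ => rfl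
  have hinj : Function.Injective (algebraMap R K) := by
    intro f g h
    apply Subtype.ext
    exact congrArg (fun z : K => (z : Ω)) h
  have : FaithfulSMul R K := (faithfulSMul_iff_algebraMap_injective R K).2 hinj
  have : IsFractionRing R K := by
    refine IsFractionRing.of_field R K ?_
    intro z
    obtain ⟨a, ha, b, hb, -, hz⟩ := hfr.2 z z.2
    exact ⟨⟨a, ha⟩, ⟨b, hb⟩, Subtype.ext hz⟩
  have : IsIntegrallyClosed R := by
    rw [isIntegrallyClosed_iff K]
    intro z hz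
    have h1 : IsIntegral R (z : Ω) := by
      obtain ⟨P, hP, hPz⟩ := hz
      refine ⟨P, hP, ?_⟩
      have h2 := hom_eval₂ P (algebraMap R K) (algebraMap K Ω) z
      rw [hPz, map_zero] at h2
      exact h2.symm
    exact ⟨⟨z, hB.normal _ z.2 h1⟩, Subtype.ext rfl⟩
  obtain ⟨ω, hω1, hω2⟩ := exists_centreO K N halg R v μ
    (fun a ha => hB.nonneg _ a.2 (by
      intro h
      exact ha (Subtype.ext h)))
    (fun a ha => (Res.ge hk hμk (hres _ a.2)).2 (by
      intro h
      exact ha (Subtype.ext (congrArg (fun z : K => (z : Ω)) h)))) (by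
    intro a ha
    have h1 := (hres _ a.2).vpos_iff hk hμk
    have ha1 : (a : Ω) ≠ 0 := fun h => ha (Subtype.ext h)
    have ha2 : (algebraMap R K a : K) ≠ 0 := fun h =>
      ha1 (congrArg (fun z : K => (z : Ω)) h)
    exact ⟨fun h2 => (h1.1 fun _ => h2) ha2, fun h2 => (h1.2 fun _ => h2) ha1⟩)
  refine ⟨ω, hω1, ?_⟩
  intro c hc
  have hcint : IsIntegral R c := by
    obtain ⟨P, hP, hPc⟩ := (mem_ON.1 hc).1
    refine ⟨P, hP, ?_⟩
    apply Subtype.ext
    have h2 := hom_eval₂ P (algebraMap R N) (algebraMap N Ω) c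
    change ((eval₂ (algebraMap R N) c P : N) : Ω) = 0
    rw [show ((eval₂ (algebraMap R N) c P : N) : Ω) =
      algebraMap N Ω (eval₂ (algebraMap R N) c P) from rfl, h2]
    exact hPc
  by_cases hc0 : c = 0
  · subst hc0
    have h1 : ((0 : N) : Ω) = 0 := rfl
    rw [h1]
    exact ⟨OVal.Ge.zero, fun _ => Pool.Agent.TAO.VPos.zero, fun _ => Pool.Agent.TAO.VPos.zero⟩
  · have hc1 : (c : Ω) ≠ 0 := fun h => hc0 (Subtype.ext h)
    obtain ⟨h1, h2⟩ := hω2 c hcint hc0
    exact ⟨fun _ => h1, fun h3 _ => h2.1 (h3 hc1), fun h3 _ => h2.2 (h3 hc1)⟩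

/-- The elements of the decomposition group and the extension. -/
theorem dec_ge (hB : Base v R K) {ω : OVal 𝕂 Ω}
    (hω : ∀ c : N, (c : Ω) ∈ ON R N → ω.Ge 0 (c : Ω) ∧ (VPos v (c : Ω) ↔ VPos ω (c : Ω)))
    {σ : N ≃ₐ[K] N} (hσ : σ ∈ decP hB N) {g : N} (hg : (g : Ω) ∈ CN v R N) :
    ω.Ge 0 (σ g : Ω) ∧ (VPos v (g : Ω) → VPos ω (σ g : Ω)) := by
  obtain ⟨a, ha, s, hs, hs0, hvs, hg'⟩ := hg
  have haN : a ∈ N := (mem_ON.1 ha).2
  have hsN : s ∈ N := (mem_ON.1 hs).2
  set a' : N := ⟨a, haN⟩ with ha'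
  set s' : N := ⟨s, hsN⟩ with hs'
  have hs'0 : s' ≠ 0 := fun h => hs0 (congrArg (fun z : N => (z : Ω)) h)
  have hgs : g = a' / s' := Subtype.ext hg'
  have hσs : ((σ s' : N) : Ω) ∈ ON R N := aut_ON hB σ hs
  have hσa : ((σ a' : N) : Ω) ∈ ON R N := aut_ON hB σ ha
  have h1 : ¬ VPos ω (σ s' : Ω) := by
    rw [← (hω _ hσs).2, ← hσ s' hs]
    exact not_vpos hs0 hvs
  obtain ⟨h2, h3⟩ := (vpos_or (hω _ hσs).1).resolve_left h1
  have h4 : ω.Ge 0 ((σ s' : N) : Ω)⁻¹ := fun _ => by rw [ω.map_inv h2, h3, neg_zero]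
  have h5 : ((σ g : N) : Ω) = (σ a' : Ω) * ((σ s' : N) : Ω)⁻¹ := by
    rw [hgs, map_div₀]
    push_cast
    rw [div_eq_mul_inv]
  rw [h5]
  constructor
  · have h6 := (hω _ hσa).1.mul h4
    rwa [add_zero] at h6
  · intro hv
    have h7 : VPos v (a : Ω) := by
      have h8 : a = (g : Ω) * s := by
        rw [hg', div_mul_cancel₀ _ hs0]
      rw [h8]
      exact hv.mul (ge_ON hB hs)
    have h8 : VPos ω (σ a' : Ω) := by
      rw [← (hω _ hσa).2, ← hσ a' ha]
      exact h7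
    exact h8.mul h4

end Ext

section SixA

variable {F : IntermediateField k Ω} {N : IntermediateField F Ω} {ω : OVal 𝕂 Ω}
  {hωk : ∀ c : k, c ≠ 0 → ω (algebraMap k Ω c) = 0} {σ : N ≃ₐ[F] N} {ι : Type} [Fintype ι]

/-- Step (6a): the elements of `W` have value at least one. -/
theorem Wb_le_Vg' (b : ι → Ω) (y : Fin D → Ω) (s₀ : ℕ) (XX AA : Submodule k Ω)
    (hrel : Wb k b ^ (s₀ + 1) ≤ Submodule.span k (Set.range y) * Wb k b ^ s₀ ⊔ XX ⊔
      Wb k b ^ (s₀ + 2) * AA) (hA : AA ≤ Vg hωk σ 0) (hx : XX ≤ Vg hωk σ (s₀ + 1 : ℕ))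
    (hy : Submodule.span k (Set.range y) ≤ Vg hωk σ 1)
    (hW : ∀ j, b j - 1 ≠ 0 → ∃ m : N, (m : Ω) = b j - 1 ∧ 0 < ω (σ m : Ω)) :
    Wb k b ≤ Vg hωk σ 1 := by
  classical
  by_cases hne : ∃ j, b j - 1 ≠ 0
  · choose! m hm hm0 using hW
    obtain ⟨j₀, hj₀⟩ := hne
    obtain ⟨j, hj, hmin⟩ := Finset.exists_min_image
      (Finset.univ.filter fun j => b j - 1 ≠ 0) (fun j => ω (σ (m j) : Ω))
      ⟨j₀, by simpa using hj₀⟩
    rw [Finset.mem_filter] at hj
    set μ : 𝕂 := ω (σ (m j) : Ω) with hμ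
    have hμ0 : 0 < μ := hm0 j hj.2
    have hWμ : Wb k b ≤ Vg hωk σ μ := by
      rw [Wb, Submodule.span_le]
      rintro _ ⟨i, rfl⟩
      by_cases hi : b i - 1 = 0
      · simp only [hi]
        exact (Vg hωk σ μ).zero_mem
      · refine ⟨m i, hm i hi, ?_⟩
        intro _
        exact hmin i (by simpa using hi)
    have hsm : ((σ (m j) : N) : Ω) ≠ 0 := by
      intro h0
      have h1 : σ (m j) = 0 := by exact_mod_cast h0
      rw [map_eq_zero_iff σ σ.injective] at h1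
      have h2 := hm j hj.2
      rw [h1] at h2
      exact hj.2 h2.symm
    have hbj : b j - 1 ∈ Wb k b := Submodule.subset_span ⟨j, rfl⟩
    have h1 : (b j - 1) ^ (s₀ + 1) ∈ Wb k b ^ (s₀ + 1) := Submodule.pow_mem_pow _ hbj _
    have h2 := hrel h1
    have h3 : Submodule.span k (Set.range y) * Wb k b ^ s₀ ⊔ XX ⊔ Wb k b ^ (s₀ + 2) * AA ≤
        Vg hωk σ (min (min (1 + s₀ * μ) (s₀ + 1 : ℕ)) ((s₀ + 2 : ℕ) * μ)) := by
      refine sup_le (sup_le ?_ ?_) ?_
      · exact (mul_le_Vg hy (pow_le_Vg hWμ s₀)).trans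
          (Vg_mono ((min_le_left _ _).trans (min_le_left _ _)))
      · refine hx.trans (Vg_mono ?_)
        exact (min_le_left _ _).trans (min_le_right _ _)
      · refine (mul_le_Vg (pow_le_Vg hWμ (s₀ + 2)) hA).trans (Vg_mono ?_)
        rw [add_zero]
        exact min_le_right _ _
    obtain ⟨z, hz, hz'⟩ := h3 h2
    have hz1 : z = m j ^ (s₀ + 1) := by
      apply Subtype.ext
      rw [hz]
      push_cast
      rw [hm j hj.2]
    rw [hz1, map_pow] at hz'
    have h4 := hz' (by push_cast; exact pow_ne_zero _ hsm)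
    have h5 : ω ((σ (m j) ^ (s₀ + 1) : N) : Ω) = (s₀ + 1 : ℕ) * μ := by
      push_cast
      rw [ω.map_pow hsm]
      push_cast
      rfl
    rw [h5] at h4
    have hμ1 : 1 ≤ μ := by
      rcases min_le_iff.1 h4 with h4 | h4
      · rcases min_le_iff.1 h4 with h4 | h4
        · push_cast at h4
          linarith
        · have h6 : (0 : 𝕂) < (s₀ + 1 : ℕ) := by positivity
          have h7 : ((s₀ + 1 : ℕ) : 𝕂) * 1 ≤ (s₀ + 1 : ℕ) * μ := by rw [mul_one]; exact h4
          exact le_of_mul_le_mul_left h7 h6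
      · exfalso
        push_cast at h4
        linarith
    exact hWμ.trans (Vg_mono hμ1)
  · push Not at hne
    rw [Wb, Submodule.span_le]
    rintro _ ⟨i, rfl⟩
    simp only [hne i]
    exact (Vg hωk σ 1).zero_mem

end SixA

end Pool.Agent.ALLO5
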